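import Pool.Agent.Q280.LF.Four

/-!
# Linear forms in `1` and in a set with the property of Baker's theorem
-/

set_option autoImplicit false
set_option linter.unusedSectionVars false

open Matroid Set Module

namespace Pool.Agent.Q280.LF

/-- `K` is (mapped onto) the field of the algebraic numbers in `Ω`. -/
structure AlgNum (K Ω : Type*) [Field K] [Field Ω] [CharZero Ω] [Algebra K Ω] : Prop where
  alg : ∀ a : K, IsAlgebraic ℚ (algebraMap K Ω a)
  surj : ∀ z : Ω, IsAlgebraic ℚ z → ∃ a : K, algebraMap K Ω a = z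

section

variable {Ω : Type*} [Field Ω] [CharZero Ω] {K : Type*} [Field K] [Algebra K Ω] [CharZero K]

variable (K) in
/-- linear combinations of `1` and the elements of `S` with algebraic coefficients -/
noncomputable def Lf (S : Set Ω) : Submodule K Ω := Submodule.span K ({1} ∪ S)

/-- the property of Baker's theorem -/
def BakerProp (S : Set Ω) : Prop :=
  ∀ (n : ℕ) (l : Fin n → Ω), (∀ i, l i ∈ S) → LinearIndependent ℚ l →
    ∀ (c₀ : Ω) (c : Fin n → Ω), IsAlgebraic ℚ c₀ → (∀ i, IsAlgebraic ℚ (c i)) →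
      c₀ + ∑ i, c i * l i = 0 → c₀ = 0 ∧ ∀ i, c i = 0

/-- linearly independent elements of `S` are algebraically independent -/
def IndepConj (S : Set Ω) : Prop :=
  ∀ (n : ℕ) (l : Fin n → Ω), (∀ i, l i ∈ S) → LinearIndependent ℚ l → AlgebraicIndependent ℚ l

/-- the same up to a bounded error -/
def IndepConjBounded (S : Set Ω) : Prop :=
  ∃ C : ℕ, ∀ (n : ℕ) (l : Fin n → Ω), (∀ i, l i ∈ S) → LinearIndependent ℚ l →
    ∃ w : Fin (n - C) → Ω, (∀ i, w i ∈ IntermediateField.adjoin ℚ (range l)) ∧ AlgebraicIndependent ℚ w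

variable {S : Set Ω}

/-- Finite dimensional spaces of linear forms are contained in the span of `1` and of linearly independent
elements of `S`. -/
theorem exists_logs (V : Submodule K Ω) [FiniteDimensional K V] (hV : V ≤ Lf K S) :
    ∃ (n : ℕ) (l : Fin n → Ω), (∀ i, l i ∈ S) ∧ LinearIndependent ℚ l ∧
      V ≤ Submodule.span K ({1} ∪ range l) := by
  obtain ⟨t, ht⟩ : V.FG := Module.Finite.iff_fg.mp inferInstance
  have h1 : ∃ X : Set Ω, X.Finite ∧ X ⊆ S ∧
      (t : Set Ω) ⊆ Submodule.span K ({1} ∪ X) := by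
    have key : ∀ u : Finset Ω, (u : Set Ω) ⊆ Lf K S → ∃ X : Set Ω, X.Finite ∧
        X ⊆ S ∧ (u : Set Ω) ⊆ Submodule.span K ({1} ∪ X) := by
      classical
      intro u
      induction u using Finset.induction_on with
      | empty => intro _; exact ⟨∅, finite_empty, empty_subset _, by simp⟩
      | insert z u _ ih =>
        intro hu
        rw [Finset.coe_insert] at hu
        obtain ⟨X, h1, h2, h3⟩ := ih ((subset_insert _ _).trans hu)
        have hz : z ∈ Lf K S := hu (mem_insert _ _)
        obtain ⟨Y, hY1, hY2⟩ := Submodule.mem_span_finite_of_mem_span hz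
        refine ⟨X ∪ ((Y : Set Ω) ∩ S),
          h1.union (Y.finite_toSet.inter_of_left _), union_subset h2 inter_subset_right, ?_⟩
        rw [Finset.coe_insert]
        refine insert_subset ?_ (h3.trans (Submodule.span_mono
          (union_subset_union_right _ subset_union_left)))
        refine Submodule.span_mono ?_ hY2
        intro w hw
        rcases hY1 hw with h | h
        · exact Or.inl h
        · exact Or.inr (Or.inr ⟨hw, h⟩)
    apply key
    intro z hz
    exact hV (by rw [← ht]; exact Submodule.subset_span hz)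
  obtain ⟨X, hX1, hX2, hX3⟩ := h1
  obtain ⟨B, hB1, hB2, hB3⟩ := exists_linearIndependent ℚ X
  have hBf : B.Finite := hX1.subset hB1
  have : Fintype B := hBf.fintype
  let e : Fin (Fintype.card B) ≃ B := (Fintype.equivFin B).symm
  refine ⟨_, fun i => (e i : Ω), fun i => hX2 (hB1 (e i).2), hB3.comp e e.injective, ?_⟩
  have hr : range (fun i => (e i : Ω)) = B := by
    ext z
    constructor
    · rintro ⟨i, rfl⟩
      exact (e i).2
    · intro hz
      exact ⟨e.symm ⟨z, hz⟩, by simp⟩
  rw [hr, ← ht, Submodule.span_le]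
  refine hX3.trans (Submodule.span_le.mpr ?_)
  rintro z (hz | hz)
  · exact Submodule.subset_span (Or.inl hz)
  · have h2 : z ∈ Submodule.span ℚ B := by
      rw [hB2]
      exact Submodule.subset_span hz
    have h3 : ∀ w ∈ Submodule.span ℚ B, w ∈ Submodule.span K ({1} ∪ B) := by
      intro w hw
      induction hw using Submodule.span_induction with
      | mem y hy => exact Submodule.subset_span (Or.inr hy)
      | zero => exact zero_mem _
      | add y z _ _ h1 h2 => exact add_mem h1 h2
      | smul a y _ h1 =>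
        have h4 : a • y = (algebraMap ℚ K a) • y := by
          rw [Rat.smul_def, Algebra.smul_def]
          congr 1
          rw [eq_ratCast, map_ratCast]
        rw [h4]
        exact Submodule.smul_mem _ _ h1
    exact h3 z h2

theorem span_le {n : ℕ} {l : Fin n → Ω} (hl : ∀ i, l i ∈ S) :
    Submodule.span K ({1} ∪ range l) ≤ Lf K S := by
  apply Submodule.span_mono
  apply union_subset_union_right
  rintro _ ⟨i, rfl⟩
  exact hl i

theorem fd {n : ℕ} (l : Fin n → Ω) : FiniteDimensional K (Submodule.span K ({1} ∪ range l)) :=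
  FiniteDimensional.span_of_finite K ((finite_singleton _).union (finite_range l))

theorem cons_range {n : ℕ} (l : Fin n → Ω) : ({1} ∪ range l : Set Ω) = range (Fin.cons 1 l : Fin (n + 1) → Ω) := by
  rw [Fin.range_cons]
  rfl

theorem finrank_le {n : ℕ} (l : Fin n → Ω) : finrank K (Submodule.span K ({1} ∪ range l)) ≤ n + 1 := by
  rw [cons_range]
  have := finrank_range_le_card (R := K) (Fin.cons 1 l : Fin (n + 1) → Ω)
  rw [Fintype.card_fin] at this
  exact this

theorem finrank_eq (hK : AlgNum K Ω) (hB : BakerProp S) {n : ℕ} {l : Fin n → Ω} (hl : ∀ i, l i ∈ S)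
    (hli : LinearIndependent ℚ l) : finrank K (Submodule.span K ({1} ∪ range l)) = n + 1 := by
  rw [cons_range]
  have h1 : LinearIndependent K (Fin.cons 1 l : Fin (n + 1) → Ω) := by
    rw [Fintype.linearIndependent_iff]
    intro g hg
    rw [Fin.sum_univ_succ] at hg
    simp only [Fin.cons_zero, Fin.cons_succ, Algebra.smul_def, mul_one] at hg
    obtain ⟨h2, h3⟩ := hB n l hl hli (algebraMap K Ω (g 0)) (fun i => algebraMap K Ω (g i.succ)) (hK.alg _)
      (fun i => hK.alg _) hg
    intro i
    refine Fin.cases ?_ (fun j => ?_) i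
    · exact (map_eq_zero _).mp h2
    · exact (map_eq_zero _).mp (h3 j)
  rw [finrank_span_eq_card h1, Fintype.card_fin]

theorem rk_span (hK : AlgNum K Ω) {n : ℕ} (l : Fin n → Ω) :
    (Mt Ω).eRk (Submodule.span K ({1} ∪ range l) : Set Ω) = (Mt Ω).eRk (range l) := by
  apply le_antisymm
  · rw [← (Mt Ω).eRk_closure_eq (range l)]
    refine (Mt Ω).eRk_mono ((span_sub hK.alg _).trans (cl_sub (union_subset ?_ (subset_cl _))))
    rw [singleton_subset_iff]
    exact cl_alg isAlgebraic_one
  · exact (Mt Ω).eRk_mono (subset_union_right.trans Submodule.subset_span)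

/-- the defect of the span of `1` and of elements -/
theorem d_le_of (hK : AlgNum K Ω) {n : ℕ} {l : Fin n → Ω} {m : ℕ} (h : (m : ℕ∞) ≤ (Mt Ω).eRk (range l)) :
    d (Submodule.span K ({1} ∪ range l)) ≤ n + 1 - m := by
  have := fd (K := K) l
  rw [← rk_span hK, ← coe_r hK.alg] at h
  have h1 : m ≤ r (Submodule.span K ({1} ∪ range l)) := by exact_mod_cast h
  have h2 := finrank_le (K := K) l
  unfold d
  omega

theorem le_rk_of {n : ℕ} {l : Fin n → Ω} {m : ℕ} (w : Fin m → Ω)
    (hw : ∀ i, w i ∈ IntermediateField.adjoin ℚ (range l)) (hind : AlgebraicIndependent ℚ w) :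
    (m : ℕ∞) ≤ (Mt Ω).eRk (range l) := by
  rw [← rank_range_of_indep hind, ← (Mt Ω).eRk_closure_eq (range l)]
  apply (Mt Ω).eRk_mono
  rintro _ ⟨i, rfl⟩
  exact adjoin_sub _ (hw i)

theorem clos_alg : Clos (algebraicClosure ℚ Ω) := by
  intro z hz
  have := algebraicClosure.isAlgebraic ℚ Ω
  rw [mem_algebraicClosure_iff]
  exact @IsAlgebraic.restrictScalars ℚ (algebraicClosure ℚ Ω) Ω _ _ _ _ _ _ _ _ this _ hz

theorem alg_le {F : IntermediateField ℚ Ω} (hF : Clos F) : algebraicClosure ℚ Ω ≤ F := by
  intro a ha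
  have h1 : IsAlgebraic ℚ a := mem_algebraicClosure_iff.mp ha
  exact hF _ (h1.extendScalars (algebraMap ℚ F).injective)

theorem free_alg (hK : AlgNum K Ω) (h : IndepConj S) : Free (Lf K S) (algebraicClosure ℚ Ω) := by
  intro n x hx hli
  apply AlgebraicIndependent.algebraicClosure
  apply indep_of_rank
  have hV : FiniteDimensional K (Submodule.span K ({1} ∪ range x)) := fd x
  have hVE : Submodule.span K ({1} ∪ range x) ≤ Lf K S := by
    rw [Submodule.span_le]
    rintro z (hz | ⟨i, rfl⟩)
    · exact Submodule.subset_span (Or.inl hz)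
    · exact hx i
  obtain ⟨m, l, h1, h2, h3⟩ := exists_logs _ hVE
  have h4 := h m l h1 h2
  have h5 : d (Submodule.span K ({1} ∪ range l)) ≤ 1 := by
    have := d_le_of hK (rank_range_of_indep h4).ge
    omega
  have := fd (K := K) l
  have h6 := d_mono hK.alg h3
  have h7 : finrank K (Submodule.span K ({1} ∪ range x)) = n + 1 := by
    rw [cons_range]
    have h8 : LinearIndependent K (Fin.cons 1 x : Fin (n + 1) → Ω) := by
      rw [Fintype.linearIndependent_iff]
      intro g hg
      rw [Fin.sum_univ_succ] at hg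
      simp only [Fin.cons_zero, Fin.cons_succ] at hg
      have h9 := hli (fun i => g i.succ) (by
        have : ∑ i : Fin n, g i.succ • x i = -(g 0 • (1 : Ω)) := by linear_combination hg
        rw [this]
        apply neg_mem
        rw [mem_algebraicClosure_iff, Algebra.smul_def, mul_one]
        exact hK.alg _)
      have h10 : ∀ i : Fin n, g i.succ = 0 := fun i => congrFun h9 i
      simp only [h10, zero_smul, Finset.sum_const_zero, add_zero] at hg
      rw [Algebra.smul_def, mul_one] at hg
      intro i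
      refine Fin.cases ?_ (fun j => ?_) i
      · exact (map_eq_zero _).mp hg
      · exact h10 j
    rw [finrank_span_eq_card h8, Fintype.card_fin]
  have h8 : n ≤ r (Submodule.span K ({1} ∪ range x)) := by
    unfold d at h5 h6
    omega
  rw [← rk_span hK, ← coe_r hK.alg]
  exact_mod_cast h8

theorem indepConj_iff (hK : AlgNum K Ω) (hB : BakerProp S) :
    IndepConj S ↔ FF hK.alg (Lf K S) = algebraicClosure ℚ Ω := by
  constructor
  · intro h
    exact le_antisymm (FF_le hK.alg clos_alg (free_alg hK h)) (alg_le (clos_FF hK.alg))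
  · intro h n l h1 h2
    have h3 := free_FF (E := Lf K S) hK.alg
    have h4 := h3 n l (fun i => Submodule.subset_span (Or.inr (h1 i))) fun c hc => by
      rw [h] at hc
      have h4 : IsAlgebraic ℚ (-(∑ i, c i • l i)) := (mem_algebraicClosure_iff.mp hc).neg
      have h5 := hB n l h1 h2 _ (fun i => algebraMap K Ω (c i)) h4 (fun i => hK.alg _) (by
        simp only [← Algebra.smul_def]
        exact neg_add_cancel _)
      funext i
      exact (map_eq_zero _).mp (h5.2 i)
    exact h4.restrictScalars (algebraMap ℚ _).injective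

theorem bounded_iff (hK : AlgNum K Ω) (hB : BakerProp S) :
    IndepConjBounded S ↔ FiniteDimensional K (core hK.alg (Lf K S)) := by
  rw [core_finite_iff]
  constructor
  · rintro ⟨C, hC⟩
    refine ⟨C + 1, fun V hV hVE => ?_⟩
    obtain ⟨n, l, h1, h2, h3⟩ := exists_logs V hVE
    obtain ⟨w, h4, h5⟩ := hC n l h1 h2
    have := fd (K := K) l
    have h6 := d_mono hK.alg h3
    have h7 := d_le_of hK (le_rk_of w h4 h5)
    omega
  · rintro ⟨C, hC⟩
    refine ⟨C.toNat, fun n l h1 h2 => ?_⟩
    have := fd (K := K) l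
    have h3 := hC _ (fd l) (span_le h1)
    have h4 := finrank_eq hK hB h1 h2
    have h5 : n - C.toNat ≤ r (Submodule.span K ({1} ∪ range l)) := by
      unfold d at h3
      omega
    have h6 : ((n - C.toNat : ℕ) : ℕ∞) ≤ (Mt Ω).eRk (range l) := by
      rw [← rk_span hK, ← coe_r hK.alg]
      exact_mod_cast h5
    obtain ⟨w, h7, h8⟩ := exists_of_le_eRk h6
    exact ⟨w, fun i => IntermediateField.subset_adjoin _ _ (h7 i), h8⟩

theorem mem_cl_adjoin (X : Set Ω) {z : Ω} : z ∈ (Mt Ω).closure X ↔ IsAlgebraic (IntermediateField.adjoin ℚ X) z := by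
  constructor
  · intro h
    exact isAlgebraic_of_cl (cl_mono (IntermediateField.subset_adjoin _ _) h)
  · intro h
    exact cl_sub (fun w hw => adjoin_sub _ hw) (cl_of_isAlgebraic h)

/-- invariance under the automorphisms which preserve `S` -/
theorem FF_auto (hK : AlgNum K Ω) (σ : Ω ≃ₐ[ℚ] Ω) (hS : ∀ z ∈ S, σ.symm z ∈ S) {x : Ω}
    (hx : x ∈ FF hK.alg (Lf K S)) : σ.symm x ∈ FF hK.alg (Lf K S) := by
  have halg : ∀ (τ : Ω ≃ₐ[ℚ] Ω) {z : Ω}, IsAlgebraic ℚ z → IsAlgebraic ℚ (τ z) := fun τ z hz =>
    hz.algHom (τ : Ω →ₐ[ℚ] Ω)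
  refine FF_map hK.alg σ (fun y hy => ?_) (fun a => hK.surj _ (halg σ (hK.alg a))) hx
  unfold Lf at hy
  induction hy using Submodule.span_induction with
  | mem y hy =>
    rcases hy with hy | hy
    · rw [mem_singleton_iff] at hy
      rw [hy, map_one]
      exact Submodule.subset_span (Or.inl rfl)
    · exact Submodule.subset_span (Or.inr (hS y hy))
  | zero => rw [map_zero]; exact zero_mem _
  | add y z _ _ h1 h2 => rw [map_add]; exact add_mem h1 h2
  | smul a y _ h1 =>
    obtain ⟨b, hb⟩ := hK.surj _ (halg σ.symm (hK.alg a))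
    have h2 : σ.symm (a • y) = b • σ.symm y := by
      rw [Algebra.smul_def, Algebra.smul_def, map_mul, hb]
    rw [h2]
    exact (Lf K S).smul_mem _ h1

end

end Pool.Agent.Q280.LF
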