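import Mathlib

/-!
# Algebraic closure and algebraic independence inside a field of characteristic zero

`Mt Ω` is the matroid of algebraic independence over `ℚ` in the field `Ω`.
-/

set_option autoImplicit false

open Matroid Set

namespace Pool.Agent.Q280.LF

variable {Ω : Type*} [Field Ω] [CharZero Ω]

variable (Ω) in
/-- The matroid of algebraic independence over the rationals. -/
noncomputable abbrev Mt : Matroid Ω := AlgebraicIndependent.matroid ℚ Ω

theorem mem_cl {X : Set Ω} {a : Ω} : a ∈ (Mt Ω).closure X ↔ IsAlgebraic (Algebra.adjoin ℚ X) a := by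
  rw [AlgebraicIndependent.matroid_closure_eq]
  rfl

theorem subset_cl (X : Set Ω) : X ⊆ (Mt Ω).closure X := (Mt Ω).subset_closure X (subset_univ _)

theorem cl_mono {X Y : Set Ω} (h : X ⊆ Y) : (Mt Ω).closure X ⊆ (Mt Ω).closure Y :=
  (Mt Ω).closure_subset_closure h

theorem cl_sub {X Y : Set Ω} (h : X ⊆ (Mt Ω).closure Y) : (Mt Ω).closure X ⊆ (Mt Ω).closure Y :=
  (Mt Ω).closure_subset_closure_of_subset_closure h

theorem cl_add {X : Set Ω} {a b : Ω} (ha : a ∈ (Mt Ω).closure X) (hb : b ∈ (Mt Ω).closure X) :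
    a + b ∈ (Mt Ω).closure X := by
  rw [mem_cl] at *
  exact ha.add hb

theorem cl_neg {X : Set Ω} {a : Ω} (ha : a ∈ (Mt Ω).closure X) : -a ∈ (Mt Ω).closure X := by
  rw [mem_cl] at *
  exact ha.neg

theorem cl_mul {X : Set Ω} {a b : Ω} (ha : a ∈ (Mt Ω).closure X) (hb : b ∈ (Mt Ω).closure X) :
    a * b ∈ (Mt Ω).closure X := by
  rw [mem_cl] at *
  exact ha.mul hb

theorem cl_inv {X : Set Ω} {a : Ω} (ha : a ∈ (Mt Ω).closure X) : a⁻¹ ∈ (Mt Ω).closure X := by
  rw [mem_cl] at *
  exact ha.inv

theorem cl_alg {X : Set Ω} {a : Ω} (ha : IsAlgebraic ℚ a) : a ∈ (Mt Ω).closure X := by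
  rw [mem_cl]
  exact ha.extendScalars (algebraMap ℚ (Algebra.adjoin ℚ X)).injective

/-- The closure as an intermediate field. -/
noncomputable def clF (X : Set Ω) : IntermediateField ℚ Ω where
  carrier := (Mt Ω).closure X
  mul_mem' := cl_mul
  add_mem' := cl_add
  algebraMap_mem' q := cl_alg (isAlgebraic_algebraMap q)
  inv_mem' _ h := cl_inv h

theorem mem_clF {X : Set Ω} {a : Ω} : a ∈ clF X ↔ a ∈ (Mt Ω).closure X := Iff.rfl

theorem adjoin_sub (X : Set Ω) {a : Ω} (h : a ∈ IntermediateField.adjoin ℚ X) :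
    a ∈ (Mt Ω).closure X := by
  have : IntermediateField.adjoin ℚ X ≤ clF X :=
    IntermediateField.adjoin_le_iff.mpr (subset_cl X)
  exact this h

theorem cl_poly {X : Set Ω} {a : Ω} (p : Polynomial Ω) (hp : p ≠ 0) (hc : ∀ i, p.coeff i ∈ (Mt Ω).closure X)
    (h0 : p.eval a = 0) : a ∈ (Mt Ω).closure X := by
  have h1 : a ∈ (Mt Ω).closure ((Mt Ω).closure X) := by
    rw [mem_cl]
    obtain ⟨q, hq⟩ : ∃ q : Polynomial (Algebra.adjoin ℚ ((Mt Ω).closure X)),
        q.map (algebraMap _ Ω) = p := by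
      have : p ∈ Polynomial.lifts (algebraMap (Algebra.adjoin ℚ ((Mt Ω).closure X)) Ω) := by
        rw [Polynomial.lifts_iff_coeff_lifts]
        intro n
        exact ⟨⟨p.coeff n, Algebra.subset_adjoin (hc n)⟩, rfl⟩
      exact (Polynomial.mem_lifts _).mp this
    refine ⟨q, ?_, ?_⟩
    · rintro rfl
      exact hp (by rw [← hq, Polynomial.map_zero])
    · rw [Polynomial.aeval_def, ← Polynomial.eval_map, hq]
      exact h0
  rwa [(Mt Ω).closure_closure] at h1

/-! ### Algebraic independence over an intermediate field -/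

/-- the matroid of algebraic independence over the field `F` -/
noncomputable abbrev MF (F : IntermediateField ℚ Ω) : Matroid Ω := AlgebraicIndependent.matroid F Ω

theorem mem_MF {F : IntermediateField ℚ Ω} {Z : Set Ω} {a : Ω} : a ∈ (MF F).closure Z ↔
    IsAlgebraic (Algebra.adjoin F Z) a := by
  rw [AlgebraicIndependent.matroid_closure_eq]
  rfl

theorem adjoin_cl {F : IntermediateField ℚ Ω} {Z : Set Ω} {y : Ω} (hy : y ∈ Algebra.adjoin F Z) :
    y ∈ (Mt Ω).closure ((F : Set Ω) ∪ Z) := by
  induction hy using Algebra.adjoin_induction with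
  | mem y hy => exact subset_cl _ (Or.inr hy)
  | algebraMap n => exact subset_cl _ (Or.inl n.2)
  | add _ _ h1 h2 h3 h4 => exact cl_add h3 h4
  | mul _ _ h1 h2 h3 h4 => exact cl_mul h3 h4

theorem adjoin_le {F : IntermediateField ℚ Ω} {Z : Set Ω} {y : Ω}
    (hy : y ∈ Algebra.adjoin ℚ ((F : Set Ω) ∪ Z)) : y ∈ Algebra.adjoin F Z := by
  induction hy using Algebra.adjoin_induction with
  | mem y hy =>
    rcases hy with hy | hy
    · exact (Algebra.adjoin F Z).algebraMap_mem ⟨y, hy⟩
    · exact Algebra.subset_adjoin hy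
  | algebraMap n => exact (Algebra.adjoin F Z).algebraMap_mem (algebraMap ℚ _ n)
  | add _ _ _ _ h1 h2 => exact add_mem h1 h2
  | mul _ _ _ _ h1 h2 => exact mul_mem h1 h2

theorem mem_MF_iff {F : IntermediateField ℚ Ω} {Z : Set Ω} {a : Ω} :
    a ∈ (MF F).closure Z ↔ a ∈ (Mt Ω).closure ((F : Set Ω) ∪ Z) := by
  constructor
  · intro h
    rw [mem_MF] at h
    obtain ⟨p, hp0, hp⟩ := h
    refine cl_poly (p.map (algebraMap _ Ω)) ?_ (fun i => ?_) ?_
    · exact (Polynomial.map_ne_zero_iff (FaithfulSMul.algebraMap_injective _ _)).mpr hp0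
    · rw [Polynomial.coeff_map]
      exact adjoin_cl (p.coeff i).2
    · rw [Polynomial.eval_map]
      exact hp
  · intro h
    rw [mem_MF]
    rw [mem_cl] at h
    obtain ⟨p, hp0, hp⟩ := h
    have hp0' : p.map (algebraMap _ Ω) ≠ 0 :=
      (Polynomial.map_ne_zero_iff (FaithfulSMul.algebraMap_injective _ _)).mpr hp0
    obtain ⟨q, hq⟩ : ∃ q : Polynomial (Algebra.adjoin F Z),
        q.map (algebraMap _ Ω) = p.map (algebraMap _ Ω) := by
      have : p.map (algebraMap _ Ω) ∈
          Polynomial.lifts (algebraMap (Algebra.adjoin F Z) Ω) := by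
        rw [Polynomial.lifts_iff_coeff_lifts]
        intro n
        rw [Polynomial.coeff_map]
        exact ⟨⟨_, adjoin_le (p.coeff n).2⟩, rfl⟩
      exact (Polynomial.mem_lifts _).mp this
    refine ⟨q, ?_, ?_⟩
    · rintro rfl
      exact hp0' (by rw [← hq, Polynomial.map_zero])
    · rw [Polynomial.aeval_def, ← Polynomial.eval_map, hq, Polynomial.eval_map]
      exact hp

/-- An element which is algebraic over `F` is in the closure of `F`. -/
theorem cl_of_isAlgebraic {F : IntermediateField ℚ Ω} {a : Ω} (h : IsAlgebraic F a) :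
    a ∈ (Mt Ω).closure (F : Set Ω) := by
  obtain ⟨p, hp0, hp⟩ := h
  refine cl_poly (p.map (algebraMap _ Ω)) ?_ (fun i => ?_) ?_
  · exact (Polynomial.map_ne_zero_iff (FaithfulSMul.algebraMap_injective _ _)).mpr hp0
  · rw [Polynomial.coeff_map]
    exact subset_cl _ (p.coeff i).2
  · rw [Polynomial.eval_map]
    exact hp

theorem isAlgebraic_of_cl {F : IntermediateField ℚ Ω} {a : Ω} (h : a ∈ (Mt Ω).closure (F : Set Ω)) :
    IsAlgebraic F a := by
  have h1 : a ∈ (MF F).closure ∅ := by
    rw [mem_MF_iff, union_empty]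
    exact h
  rw [mem_MF] at h1
  obtain ⟨p, hp0, hp⟩ := h1
  have hb : ∀ y : Algebra.adjoin F (∅ : Set Ω), ∃ z : F, (algebraMap F Ω z) = y := by
    rintro ⟨y, hy⟩
    rw [Algebra.adjoin_empty, Algebra.mem_bot] at hy
    exact hy
  have hp0' : p.map (algebraMap _ Ω) ≠ 0 :=
    (Polynomial.map_ne_zero_iff (FaithfulSMul.algebraMap_injective _ _)).mpr hp0
  obtain ⟨q, hq⟩ : ∃ q : Polynomial F, q.map (algebraMap _ Ω) = p.map (algebraMap _ Ω) := by
    have : p.map (algebraMap _ Ω) ∈ Polynomial.lifts (algebraMap F Ω) := by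
      rw [Polynomial.lifts_iff_coeff_lifts]
      intro n
      rw [Polynomial.coeff_map]
      obtain ⟨z, hz⟩ := hb (p.coeff n)
      exact ⟨z, hz⟩
    exact (Polynomial.mem_lifts _).mp this
  refine ⟨q, ?_, ?_⟩
  · rintro rfl
    exact hp0' (by rw [← hq, Polynomial.map_zero])
  · rw [Polynomial.aeval_def, ← Polynomial.eval_map, hq, Polynomial.eval_map]
    exact hp

/-- `F` is algebraically closed in `Ω`. -/
def Clos (F : IntermediateField ℚ Ω) : Prop := ∀ z : Ω, IsAlgebraic F z → z ∈ F

theorem Clos.cl_sub {F : IntermediateField ℚ Ω} (h : Clos F) {X : Set Ω} (hX : X ⊆ F) :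
    (Mt Ω).closure X ⊆ F := fun _ hz => h _ (isAlgebraic_of_cl (cl_mono hX hz))

theorem clos_clF (X : Set Ω) : Clos (clF X) := by
  intro z hz
  have h1 := cl_of_isAlgebraic hz
  have h2 : ((clF X : IntermediateField ℚ Ω) : Set Ω) = (Mt Ω).closure X := rfl
  rw [h2, (Mt Ω).closure_closure] at h1
  exact h1

/-- A family in which no member depends on the others. -/
theorem indep_of_forall {ι : Type*} {F : IntermediateField ℚ Ω} {v : ι → Ω}
    (hcon : ∀ i, v i ∉ (Mt Ω).closure ((F : Set Ω) ∪ v '' {i}ᶜ)) : AlgebraicIndependent F v := by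
  have hinj : Function.Injective v := by
    intro i k hik
    by_contra hne
    exact hcon i (subset_cl _ (Or.inr ⟨k, fun h => hne h.symm, hik.symm⟩))
  have h1 : (MF F).Indep (range v) := by
    rw [indep_iff_forall_notMem_closure_sdiff (by simp)]
    rintro _ ⟨i, rfl⟩ h2
    rw [mem_MF_iff] at h2
    refine hcon i (cl_mono (union_subset_union_right _ ?_) h2)
    rintro _ ⟨⟨k, rfl⟩, hk⟩
    exact ⟨k, fun h => hk (by rw [h]; rfl), rfl⟩
  rw [AlgebraicIndependent.matroid_indep_iff] at h1
  have h2 : AlgebraicIndependent F (fun x : range v => (x : Ω)) := h1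
  exact h2.comp (rangeFactorization v) (rangeFactorization_injective.mpr hinj)

theorem notMem_of_indep {ι : Type*} {F : IntermediateField ℚ Ω} {v : ι → Ω}
    (h : AlgebraicIndependent F v) (i : ι) : v i ∉ (Mt Ω).closure ((F : Set Ω) ∪ v '' {i}ᶜ) := by
  rw [← mem_MF_iff, mem_MF]
  exact h.transcendental_adjoin (by simp)

theorem rank_of_indep {F : IntermediateField ℚ Ω} {T : Set Ω} (hT : T ⊆ F) : ∀ (m : ℕ) (w : Fin m → Ω),
    AlgebraicIndependent F w → (Mt Ω).eRk T + m ≤ (Mt Ω).eRk (T ∪ range w) := by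
  intro m
  induction m with
  | zero =>
    intro w _
    simp
  | succ m ih =>
    intro w hw
    have h1 := ih (w ∘ Fin.castSucc) (hw.comp _ (Fin.castSucc_injective m))
    have h2 := notMem_of_indep hw (Fin.last m)
    have h3 : T ∪ range w = insert (w (Fin.last m)) (T ∪ range (w ∘ Fin.castSucc)) := by
      ext x
      simp only [mem_union, mem_range, mem_insert_iff, Function.comp]
      constructor
      · rintro (h | ⟨i, rfl⟩)
        · exact Or.inr (Or.inl h)
        · induction i using Fin.lastCases with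
          | last => exact Or.inl rfl
          | cast i => exact Or.inr (Or.inr ⟨i, rfl⟩)
      · rintro (h | h | ⟨i, rfl⟩)
        · exact Or.inr ⟨_, h.symm⟩
        · exact Or.inl h
        · exact Or.inr ⟨_, rfl⟩
    have h4 : w (Fin.last m) ∉ (Mt Ω).closure (T ∪ range (w ∘ Fin.castSucc)) := by
      intro h
      apply h2
      refine cl_mono (union_subset_union hT ?_) h
      rintro _ ⟨i, rfl⟩
      exact ⟨Fin.castSucc i, (Fin.castSucc_lt_last i).ne, rfl⟩
    rw [h3, (Mt Ω).eRk_insert_eq_add_one ⟨mem_univ _, h4⟩]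
    push_cast
    rw [← add_assoc]
    exact add_le_add h1 le_rfl

/-- a family whose range has full rank is independent -/
theorem indep_of_rank {m : ℕ} {v : Fin m → Ω} (h : (m : ℕ∞) ≤ (Mt Ω).eRk (range v)) :
    AlgebraicIndependent ℚ v := by
  have h1 : (range v).encard ≤ m := by
    rw [← image_univ]
    refine (encard_image_le _ _).trans ?_
    simp
  have hfin : (range v).Finite := finite_range v
  have h2 : (Mt Ω).eRk (range v) = (range v).encard := le_antisymm ((Mt Ω).eRk_le_encard _) (h1.trans h)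
  have h3 : (Mt Ω).Indep (range v) := ((Mt Ω).indep_iff_eRk_eq_encard_of_finite hfin).mpr h2
  have h4 : (range v).encard = m := le_antisymm h1 (h.trans ((Mt Ω).eRk_le_encard _))
  have hinj : Function.Injective v := by
    have h5 : (range v).ncard = m := by
      have : ((range v).ncard : ℕ∞) = (range v).encard := hfin.cast_ncard_eq
      rw [h4] at this
      exact_mod_cast this
    classical
    have h6 : (Finset.univ.image v).card = (Finset.univ : Finset (Fin m)).card := by
      rw [Finset.card_univ, Fintype.card_fin]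
      refine Eq.trans ?_ h5
      rw [← Set.ncard_coe_finset]
      congr 1
      ext x
      simp
    have h7 := Finset.card_image_iff.mp h6
    exact fun a b hab => h7 (Finset.mem_coe.mpr (Finset.mem_univ _)) (Finset.mem_coe.mpr (Finset.mem_univ _)) hab
  rw [AlgebraicIndependent.matroid_indep_iff] at h3
  have h8 : AlgebraicIndependent ℚ (fun x : range v => (x : Ω)) := h3
  exact h8.comp (rangeFactorization v) (rangeFactorization_injective.mpr hinj)

theorem rank_range_of_indep {m : ℕ} {v : Fin m → Ω} (h : AlgebraicIndependent ℚ v) :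
    (Mt Ω).eRk (range v) = m := by
  have h1 : (Mt Ω).Indep (range v) := by
    rw [AlgebraicIndependent.matroid_indep_iff]
    exact h.to_subtype_range
  rw [h1.eRk_eq_encard, ← image_univ, h.injective.encard_image]
  simp

end Pool.Agent.Q280.LF
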