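import Pool.Agent.Q280.LF.Cl

/-!
# The defect of finite dimensional spaces and its core
-/

set_option autoImplicit false

open Matroid Set Module

namespace Pool.Agent.Q280.LF

variable {Ω : Type*} [Field Ω] [CharZero Ω] {K : Type*} [Field K] [Algebra K Ω]

/-- complements inside a subspace -/
theorem exists_rel_compl {V W : Submodule K Ω} (h : V ≤ W) : ∃ q ≤ W, V ⊓ q = ⊥ ∧ V ⊔ q = W := by
  obtain ⟨q, hq⟩ := exists_isCompl V
  refine ⟨q ⊓ W, inf_le_right, ?_, ?_⟩
  · rw [← inf_assoc, hq.inf_eq_bot, bot_inf_eq]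
  · rw [← sup_inf_assoc_of_le q h, hq.sup_eq_top, top_inf_eq]

variable (hK : ∀ a : K, IsAlgebraic ℚ (algebraMap K Ω a))

/-- closed sets are subspaces -/
noncomputable def clK (X : Set Ω) : Submodule K Ω where
  carrier := (Mt Ω).closure X
  add_mem' := cl_add
  zero_mem' := cl_alg isAlgebraic_zero
  smul_mem' a z hz := by
    rw [Algebra.smul_def]
    exact cl_mul (cl_alg (hK a)) hz

include hK in
theorem span_sub (X : Set Ω) : (Submodule.span K X : Set Ω) ⊆ (Mt Ω).closure X := by
  have h : Submodule.span K X ≤ clK hK X := Submodule.span_le.mpr (subset_cl X)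
  exact h

include hK in
theorem sup_sub (V W : Submodule K Ω) : ((V ⊔ W : Submodule K Ω) : Set Ω) ⊆ (Mt Ω).closure (V ∪ W) := by
  have h : V ⊔ W ≤ clK hK (V ∪ W) :=
    sup_le (fun x hx => subset_cl _ (Or.inl hx)) (fun x hx => subset_cl _ (Or.inr hx))
  exact h

include hK in
theorem rk_span_le (X : Set Ω) : (Mt Ω).eRk (Submodule.span K X : Set Ω) ≤ X.encard := by
  refine ((Mt Ω).eRk_mono (span_sub hK X)).trans ?_
  rw [(Mt Ω).eRk_closure_eq]
  exact (Mt Ω).eRk_le_encard _

include hK in
theorem rk_le_finrank (V : Submodule K Ω) [FiniteDimensional K V] : (Mt Ω).eRk (V : Set Ω) ≤ finrank K V := by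
  let b := finBasis K V
  have h1 : Submodule.span K (range fun i => (b i : Ω)) = V := by
    have h2 : (range fun i => (b i : Ω)) = V.subtype '' range b := by
      ext x
      simp
    rw [h2, ← Submodule.map_span, b.span_eq, Submodule.map_top, Submodule.range_subtype]
  have h3 := rk_span_le hK (range fun i => (b i : Ω))
  rw [h1] at h3
  refine h3.trans ?_
  rw [← image_univ]
  refine (encard_image_le _ _).trans ?_
  simp

include hK in
theorem rk_ne_top (V : Submodule K Ω) [FiniteDimensional K V] : (Mt Ω).eRk (V : Set Ω) ≠ ⊤ :=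
  ne_top_of_le_ne_top (ENat.natCast_ne_top _) (rk_le_finrank hK V)

/-- the transcendence degree as a natural number -/
noncomputable def r (V : Submodule K Ω) : ℕ := ((Mt Ω).eRk (V : Set Ω)).toNat

include hK in
theorem coe_r (V : Submodule K Ω) [FiniteDimensional K V] : ((r V : ℕ) : ℕ∞) = (Mt Ω).eRk (V : Set Ω) :=
  ENat.natCast_toNat (rk_ne_top hK V)

include hK in
theorem r_le_finrank (V : Submodule K Ω) [FiniteDimensional K V] : r V ≤ finrank K V := by
  have := rk_le_finrank hK V
  rw [← coe_r hK] at this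
  exact_mod_cast this

include hK in
theorem r_mono {V W : Submodule K Ω} [FiniteDimensional K V] [FiniteDimensional K W]
    (h : (V : Set Ω) ⊆ (Mt Ω).closure (W : Set Ω)) : r V ≤ r W := by
  have h1 := (Mt Ω).eRk_mono h
  rw [(Mt Ω).eRk_closure_eq, ← coe_r hK, ← coe_r hK] at h1
  exact_mod_cast h1

include hK in
theorem r_submod (V W : Submodule K Ω) [FiniteDimensional K V] [FiniteDimensional K W] :
    r (V ⊓ W) + r (V ⊔ W) ≤ r V + r W := by
  have hf1 : FiniteDimensional K (V ⊓ W : Submodule K Ω) := Submodule.finiteDimensional_inf_left _ _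
  have hf2 : FiniteDimensional K (V ⊔ W : Submodule K Ω) := Submodule.finiteDimensional_sup _ _
  have h1 := (Mt Ω).eRk_inter_add_eRk_union_le (V : Set Ω) (W : Set Ω)
  have h2 : (Mt Ω).eRk ((V ⊔ W : Submodule K Ω) : Set Ω) ≤ (Mt Ω).eRk ((V : Set Ω) ∪ W) := by
    refine ((Mt Ω).eRk_mono (sup_sub hK V W)).trans ?_
    rw [(Mt Ω).eRk_closure_eq]
  have h3 : ((V ⊓ W : Submodule K Ω) : Set Ω) = (V : Set Ω) ∩ W := rfl
  have h4 : (Mt Ω).eRk ((V ⊓ W : Submodule K Ω) : Set Ω) + (Mt Ω).eRk ((V ⊔ W : Submodule K Ω) : Set Ω) ≤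
      (Mt Ω).eRk (V : Set Ω) + (Mt Ω).eRk (W : Set Ω) := by
    rw [h3]
    exact (add_le_add le_rfl h2).trans h1
  rw [← coe_r hK, ← coe_r hK, ← coe_r hK, ← coe_r hK] at h4
  exact_mod_cast h4

/-- the defect -/
noncomputable def d (V : Submodule K Ω) : ℤ := (finrank K V : ℤ) - r V

include hK in
theorem d_nonneg (V : Submodule K Ω) [FiniteDimensional K V] : 0 ≤ d V := by
  have := r_le_finrank hK V
  unfold d
  omega

include hK in
theorem d_bot : d (⊥ : Submodule K Ω) = 0 := by
  have h1 := r_le_finrank hK (⊥ : Submodule K Ω)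
  have h2 : finrank K (⊥ : Submodule K Ω) = 0 := finrank_bot K Ω
  unfold d
  omega

include hK in
theorem d_submod (V W : Submodule K Ω) [FiniteDimensional K V] [FiniteDimensional K W] :
    d V + d W ≤ d (V ⊓ W) + d (V ⊔ W) := by
  have h3 := r_submod hK V W
  have h4 := Submodule.finrank_sup_add_finrank_inf_eq V W
  unfold d
  omega

include hK in
theorem d_mono {V W : Submodule K Ω} [FiniteDimensional K W] (h : V ≤ W) : d V ≤ d W := by
  have hV : FiniteDimensional K V := Submodule.finiteDimensional_of_le h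
  obtain ⟨q, hq, h1, h2⟩ := exists_rel_compl h
  have hfq : FiniteDimensional K q := Submodule.finiteDimensional_of_le hq
  have h3 := d_submod hK V q
  rw [h1, h2, d_bot hK] at h3
  have := d_nonneg hK q
  omega

include hK in
/-- adding an algebraic element -/
theorem d_step {V : Submodule K Ω} [FiniteDimensional K V] {x : Ω} (hcl : x ∈ (Mt Ω).closure (V : Set Ω))
    (hx : x ∉ V) : d V < d (V ⊔ Submodule.span K {x}) := by
  have hf2 : FiniteDimensional K (V ⊔ Submodule.span K {x} : Submodule K Ω) :=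
    Submodule.finiteDimensional_sup _ _
  have h1 : V < V ⊔ Submodule.span K {x} := by
    refine lt_of_le_of_ne le_sup_left fun h => hx ?_
    rw [h]
    exact Submodule.mem_sup_right (Submodule.mem_span_singleton_self x)
  have h2 := Submodule.finrank_lt_finrank_of_lt h1
  have h3 : r (V ⊔ Submodule.span K {x}) ≤ r V := by
    apply r_mono hK
    have h4 : V ⊔ Submodule.span K {x} ≤ clK hK (V : Set Ω) := by
      refine sup_le (subset_cl _) ?_
      rw [Submodule.span_singleton_le_iff_mem]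
      exact hcl
    exact h4
  unfold d
  omega

variable (E : Submodule K Ω)

/-- all proper subspaces have smaller defect -/
def Tight (T : Submodule K Ω) : Prop := FiniteDimensional K T ∧ T ≤ E ∧ ∀ X < T, d X < d T

variable {E}

include hK in
theorem tight_bot : Tight E (⊥ : Submodule K Ω) := ⟨inferInstance, bot_le, fun X hX => absurd hX not_lt_bot⟩

include hK in
theorem Tight.sup {V W : Submodule K Ω} (hV : Tight E V) (hW : Tight E W) : Tight E (V ⊔ W) := by
  have := hV.1
  have := hW.1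
  have hf2 : FiniteDimensional K (V ⊔ W : Submodule K Ω) := Submodule.finiteDimensional_sup _ _
  refine ⟨hf2, sup_le hV.2.1 hW.2.1, fun X hX => ?_⟩
  have hfX : FiniteDimensional K X := Submodule.finiteDimensional_of_le hX.le
  have key : ∀ {T : Submodule K Ω}, Tight E T → T ≤ V ⊔ W → ¬ T ≤ X → d X < d (V ⊔ W) := by
    intro T hT hTVW hTX
    have := hT.1
    have h1 := d_submod hK T X
    have h2 : d (T ⊓ X) < d T := hT.2.2 _ (lt_of_le_of_ne inf_le_left fun h => hTX (inf_eq_left.mp h))
    have h3 : d (T ⊔ X) ≤ d (V ⊔ W) := d_mono hK (sup_le hTVW hX.le)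
    omega
  by_cases h : V ≤ X
  · refine key hW le_sup_right fun h2 => ?_
    exact absurd (sup_le h h2) (not_le_of_gt hX)
  · exact key hV le_sup_left h

include hK in
theorem exists_tight : ∀ (n : ℕ) (V : Submodule K Ω), FiniteDimensional K V → V ≤ E → finrank K V = n →
    ∃ T ≤ V, Tight E T ∧ d T = d V := by
  intro n
  induction n using Nat.strong_induction_on with
  | _ n ih =>
    intro V hV hVE hn
    by_cases h : Tight E V
    · exact ⟨V, le_rfl, h, rfl⟩
    · unfold Tight at h
      push Not at h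
      obtain ⟨X, hX1, hX2⟩ := h hV hVE
      have hfX : FiniteDimensional K X := Submodule.finiteDimensional_of_le hX1.le
      have h1 := Submodule.finrank_lt_finrank_of_lt hX1
      obtain ⟨T, h2, h3, h4⟩ := ih _ (hn ▸ h1) X hfX (hX1.le.trans hVE) rfl
      exact ⟨T, h2.trans hX1.le, h3, h4.trans (le_antisymm (d_mono hK hX1.le) hX2)⟩

variable (E)

/-- the union of the tight subspaces -/
noncomputable def core : Submodule K Ω where
  carrier := {x | ∃ T, Tight E T ∧ x ∈ T}
  add_mem' := by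
    rintro a b ⟨T, hT, ha⟩ ⟨T', hT', hb⟩
    exact ⟨T ⊔ T', hT.sup hK hT', add_mem (Submodule.mem_sup_left ha) (Submodule.mem_sup_right hb)⟩
  zero_mem' := ⟨⊥, tight_bot hK, zero_mem _⟩
  smul_mem' := by
    rintro c x ⟨T, hT, hx⟩
    exact ⟨T, hT, T.smul_mem c hx⟩

variable {E}

theorem mem_core {x : Ω} : x ∈ core hK E ↔ ∃ T, Tight E T ∧ x ∈ T := Iff.rfl

theorem Tight.le_core {T : Submodule K Ω} (h : Tight E T) : T ≤ core hK E := fun _ hx => ⟨T, h, hx⟩

theorem core_le : core hK E ≤ E := by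
  rintro x ⟨T, hT, hx⟩
  exact hT.2.1 hx

theorem exists_tight_of_finite {X : Set Ω} (hX : X.Finite) (hX2 : X ⊆ core hK E) :
    ∃ T, Tight E T ∧ X ⊆ T := by
  induction X, hX using Set.Finite.induction_on with
  | empty => exact ⟨⊥, tight_bot hK, empty_subset _⟩
  | insert _ _ ih =>
    obtain ⟨T, h1, h2⟩ := ih ((subset_insert _ _).trans hX2)
    obtain ⟨T', h3, h4⟩ := hX2 (mem_insert _ _)
    refine ⟨T ⊔ T', h1.sup hK h3, insert_subset (Submodule.mem_sup_right h4) ?_⟩
    exact fun x hx => Submodule.mem_sup_left (h2 hx)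

theorem exists_core_elt {V : Submodule K Ω} [FiniteDimensional K V] (hV : V ≤ E) {x : Ω} (hx : x ∈ E)
    (hcl : x ∈ (Mt Ω).closure (V : Set Ω)) : ∃ v ∈ V, x + v ∈ core hK E := by
  by_cases hxV : x ∈ V
  · exact ⟨-x, V.neg_mem hxV, by rw [add_neg_cancel]; exact zero_mem _⟩
  · have hf2 : FiniteDimensional K (V ⊔ Submodule.span K {x} : Submodule K Ω) :=
      Submodule.finiteDimensional_sup _ _
    have h1 := d_step hK hcl hxV
    obtain ⟨T, h2, h3, h4⟩ := exists_tight (E := E) hK _ (V ⊔ Submodule.span K {x}) hf2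
      (sup_le hV ((Submodule.span_singleton_le_iff_mem _ _).mpr hx)) rfl
    have h5 : ¬ T ≤ V := by
      intro h
      have := d_mono hK h
      omega
    obtain ⟨t, ht, htV⟩ := SetLike.not_le_iff_exists.mp h5
    obtain ⟨v, hv, w, hw, hvw⟩ := Submodule.mem_sup.mp (h2 ht)
    obtain ⟨c, rfl⟩ := Submodule.mem_span_singleton.mp hw
    have hc : c ≠ 0 := by
      rintro rfl
      rw [zero_smul, add_zero] at hvw
      rw [hvw] at hv
      exact htV hv
    refine ⟨c⁻¹ • v, V.smul_mem _ hv, T, h3, ?_⟩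
    have h6 : x + c⁻¹ • v = c⁻¹ • t := by
      rw [← hvw, smul_add, smul_smul, inv_mul_cancel₀ hc, one_smul, add_comm]
    rw [h6]
    exact T.smul_mem _ ht

theorem mem_core_of_cl {x : Ω} (hx : x ∈ E) (hcl : x ∈ (Mt Ω).closure (core hK E : Set Ω)) : x ∈ core hK E := by
  obtain ⟨X, hX1, hX2, _, hX3⟩ := exists_subset_finite_closure_of_subset_closure (M := Mt Ω)
    (finite_singleton x) (singleton_subset_iff.mpr hcl)
  obtain ⟨T, hT, hXT⟩ := exists_tight_of_finite hK hX2 hX1
  have := hT.1
  obtain ⟨v, hv, h1⟩ := exists_core_elt hK hT.2.1 hx (cl_mono hXT (hX3 rfl))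
  have h2 := sub_mem h1 (hT.le_core hK hv)
  rwa [add_sub_cancel_right] at h2

end Pool.Agent.Q280.LF
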