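import Pool.Agent.Q280.LF.Free

/-!
# Products `x i * y j` in a space
-/

set_option autoImplicit false

open Matroid Set Module

namespace Pool.Agent.Q280.LF

variable {Ω : Type*} [Field Ω] [CharZero Ω] {K : Type*} [Field K] [Algebra K Ω]

theorem exists_of_le_eRk {n : ℕ} {X : Set Ω} (h : (n : ℕ∞) ≤ (Mt Ω).eRk X) :
    ∃ w : Fin n → Ω, (∀ i, w i ∈ X) ∧ AlgebraicIndependent ℚ w := by
  obtain ⟨I, hI, hind, hcard⟩ := (Mt Ω).le_eRk_iff.mp h
  have hfin : I.Finite := finite_of_encard_eq_coe hcard
  have : Fintype I := hfin.fintype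
  have hc : Fintype.card I = n := by
    have h1 : I.encard = Fintype.card I := by
      rw [← Set.coe_fintypeCard]
    rw [hcard] at h1
    exact_mod_cast h1.symm
  let e : Fin n ≃ I := (finCongr hc.symm).trans (Fintype.equivFin I).symm
  refine ⟨fun i => (e i : Ω), fun i => hI (e i).2, ?_⟩
  rw [AlgebraicIndependent.matroid_indep_iff] at hind
  have h2 : AlgebraicIndependent ℚ (fun x : I => (x : Ω)) := hind
  exact h2.comp e e.injective

omit [CharZero Ω] in
/-- a singular matrix `A` whose mixed determinant with the product matrix vanishes is zero -/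
theorem four_aux {x0 x1 y0 y1 : Ω} (hx : ∀ a b : K, a • x0 + b • x1 = 0 → a = 0 ∧ b = 0)
    (hy : ∀ a b : K, a • y0 + b • y1 = 0 → a = 0 ∧ b = 0) (A : Fin 4 → K)
    (h1 : A 0 * A 3 = A 1 * A 2)
    (h2 : x0 * y0 * algebraMap K Ω (A 3) + x1 * y1 * algebraMap K Ω (A 0) -
      x0 * y1 * algebraMap K Ω (A 2) - x1 * y0 * algebraMap K Ω (A 1) = 0) : A = 0 := by
  have h1' : algebraMap K Ω (A 0) * algebraMap K Ω (A 3) = algebraMap K Ω (A 1) * algebraMap K Ω (A 2) := by
    rw [← map_mul, ← map_mul, h1]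
  have nx : ∀ a b : K, x1 * algebraMap K Ω a - x0 * algebraMap K Ω b = 0 → a = 0 ∧ b = 0 := by
    intro a b h
    have := hx (-b) a (by rw [Algebra.smul_def, Algebra.smul_def, map_neg]; linear_combination h)
    exact ⟨this.2, neg_eq_zero.mp this.1⟩
  have ny : ∀ a b : K, y1 * algebraMap K Ω a - y0 * algebraMap K Ω b = 0 → a = 0 ∧ b = 0 := by
    intro a b h
    have := hy (-b) a (by rw [Algebra.smul_def, Algebra.smul_def, map_neg]; linear_combination h)
    exact ⟨this.2, neg_eq_zero.mp this.1⟩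
  by_contra hA
  obtain ⟨i, hi⟩ := Function.ne_iff.mp hA
  fin_cases i
  · have h3 : (x1 * algebraMap K Ω (A 0) - x0 * algebraMap K Ω (A 2)) *
        (y1 * algebraMap K Ω (A 0) - y0 * algebraMap K Ω (A 1)) = 0 := by
      linear_combination algebraMap K Ω (A 0) * h2 - x0 * y0 * h1'
    rcases mul_eq_zero.mp h3 with h | h
    · exact hi (nx _ _ h).1
    · exact hi (ny _ _ h).1
  · have h3 : (x1 * algebraMap K Ω (A 1) - x0 * algebraMap K Ω (A 3)) *
        (y1 * algebraMap K Ω (A 0) - y0 * algebraMap K Ω (A 1)) = 0 := by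
      linear_combination algebraMap K Ω (A 1) * h2 - x0 * y1 * h1'
    rcases mul_eq_zero.mp h3 with h | h
    · exact hi (nx _ _ h).1
    · exact hi (ny _ _ h).2
  · have h3 : (x1 * algebraMap K Ω (A 0) - x0 * algebraMap K Ω (A 2)) *
        (y1 * algebraMap K Ω (A 2) - y0 * algebraMap K Ω (A 3)) = 0 := by
      linear_combination algebraMap K Ω (A 2) * h2 - x1 * y0 * h1'
    rcases mul_eq_zero.mp h3 with h | h
    · exact hi (nx _ _ h).2
    · exact hi (ny _ _ h).1
  · have h3 : (x1 * algebraMap K Ω (A 1) - x0 * algebraMap K Ω (A 3)) *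
        (y1 * algebraMap K Ω (A 2) - y0 * algebraMap K Ω (A 3)) = 0 := by
      linear_combination algebraMap K Ω (A 3) * h2 - x1 * y1 * h1'
    rcases mul_eq_zero.mp h3 with h | h
    · exact hi (nx _ _ h).2
    · exact hi (ny _ _ h).2

/-- **Four exponentials over a field over which `E` is free.** -/
theorem four {E : Submodule K Ω} {F : IntermediateField ℚ Ω} (hF : LinLoc E F)
    {x y : Fin 2 → Ω} (hx : LinearIndependent K x) (hy : LinearIndependent K y)
    (hxy : ∀ i j, x i * y j ∈ E) (i j : Fin 2) : x i * y j ∈ F := by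
  have hx' : ∀ a b : K, a • x 0 + b • x 1 = 0 → a = 0 ∧ b = 0 := by
    intro a b h
    have := Fintype.linearIndependent_iff.mp hx ![a, b] (by simpa [Fin.sum_univ_two] using h)
    exact ⟨this 0, this 1⟩
  have hy' : ∀ a b : K, a • y 0 + b • y 1 = 0 → a = 0 ∧ b = 0 := by
    intro a b h
    have := Fintype.linearIndependent_iff.mp hy ![a, b] (by simpa [Fin.sum_univ_two] using h)
    exact ⟨this 0, this 1⟩
  obtain ⟨k, b, a, z, _, _, h3, h4⟩ := hF 4 ![x 0 * y 0, x 0 * y 1, x 1 * y 0, x 1 * y 1] (by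
    intro l
    fin_cases l
    · exact hxy 0 0
    · exact hxy 0 1
    · exact hxy 1 0
    · exact hxy 1 1)
  have h5 := h4 (MvPolynomial.X 0 * MvPolynomial.X 3 - MvPolynomial.X 1 * MvPolynomial.X 2) (by
    simp
    ring)
  simp only [map_sub, map_mul, MvPolynomial.aeval_X] at h5
  have ha : ∀ l, a l = 0 := by
    intro l
    -- moving in the direction `a l`
    have h6 : ∀ s : Ω, ∀ i, (b i : Ω) + ∑ j, a j i • (z + Pi.single l s : Fin k → Ω) j =
        ![x 0 * y 0, x 0 * y 1, x 1 * y 0, x 1 * y 1] i + algebraMap K Ω (a l i) * s := by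
      intro s i
      rw [h3 i, add_assoc]
      congr 1
      simp only [Pi.add_apply, smul_add, Finset.sum_add_distrib]
      congr 1
      rw [Finset.sum_eq_single l]
      · rw [Pi.single_eq_same, Algebra.smul_def]
      · intro j _ hj
        rw [Pi.single_eq_of_ne hj, smul_zero]
      · intro h
        exact absurd (Finset.mem_univ l) h
    have h7 : ∀ s : Ω, (x 0 * y 0 + algebraMap K Ω (a l 0) * s) * (x 1 * y 1 + algebraMap K Ω (a l 3) * s) -
        (x 0 * y 1 + algebraMap K Ω (a l 1) * s) * (x 1 * y 0 + algebraMap K Ω (a l 2) * s) = 0 := by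
      intro s
      have := h5 (z + Pi.single l s)
      rw [h6, h6, h6, h6] at this
      exact this
    have h8 := h7 1
    have h9 := h7 (-1)
    have h10 : algebraMap K Ω (a l 0 * a l 3) = algebraMap K Ω (a l 1 * a l 2) := by
      rw [map_mul, map_mul]
      have h11 : (2 : Ω) * (algebraMap K Ω (a l 0) * algebraMap K Ω (a l 3) -
          algebraMap K Ω (a l 1) * algebraMap K Ω (a l 2)) = 0 := by
        linear_combination h8 + h9
      rcases mul_eq_zero.mp h11 with h | h
      · exact absurd h two_ne_zero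
      · linear_combination h
    refine four_aux hx' hy' (a l) ((algebraMap K Ω).injective h10) ?_
    have h11 : (2 : Ω) * (x 0 * y 0 * algebraMap K Ω (a l 3) + x 1 * y 1 * algebraMap K Ω (a l 0) -
      x 0 * y 1 * algebraMap K Ω (a l 2) - x 1 * y 0 * algebraMap K Ω (a l 1)) = 0 := by
      linear_combination h8 - h9
    rcases mul_eq_zero.mp h11 with h | h
    · exact absurd h two_ne_zero
    · exact h
  have h6 : ∀ i, ![x 0 * y 0, x 0 * y 1, x 1 * y 0, x 1 * y 1] i ∈ F := by
    intro i
    rw [h3 i]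
    simp only [ha, Pi.zero_apply, zero_smul, Finset.sum_const_zero, add_zero]
    exact (b i).2
  fin_cases i <;> fin_cases j
  · exact h6 0
  · exact h6 1
  · exact h6 2
  · exact h6 3

end Pool.Agent.Q280.LF
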