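import Pool.Agent.Q280.LF.Dim

/-!
# The smallest algebraically closed field over which a space is free
-/

set_option autoImplicit false

open Matroid Set Module

namespace Pool.Agent.Q280.LF

variable {Ω : Type*} [Field Ω] [CharZero Ω] {K : Type*} [Field K] [Algebra K Ω]

/-- Elements of `E` which are linearly independent over `K` modulo `F` are algebraically independent over `F`. -/
def Free (E : Submodule K Ω) (F : IntermediateField ℚ Ω) : Prop :=
  ∀ (n : ℕ) (x : Fin n → Ω), (∀ i, x i ∈ E) → (∀ c : Fin n → K, ∑ i, c i • x i ∈ F → c = 0) →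
    AlgebraicIndependent F x

variable (hK : ∀ a : K, IsAlgebraic ℚ (algebraMap K Ω a)) {E : Submodule K Ω}

/-- the canonical field -/
noncomputable def FF (E : Submodule K Ω) : IntermediateField ℚ Ω := clF (core hK E : Set Ω)

theorem mem_FF {x : Ω} : x ∈ FF hK E ↔ x ∈ (Mt Ω).closure (core hK E : Set Ω) := Iff.rfl

theorem clos_FF : Clos (FF hK E) := clos_clF _

theorem core_sub_FF {x : Ω} (hx : x ∈ core hK E) : x ∈ FF hK E := subset_cl _ hx

theorem mem_core_iff {x : Ω} : x ∈ core hK E ↔ x ∈ FF hK E ∧ x ∈ E :=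
  ⟨fun h => ⟨core_sub_FF hK h, core_le hK h⟩, fun h => mem_core_of_cl hK h.2 h.1⟩

omit [CharZero Ω] in
theorem exists_coeff {n : ℕ} (x : Fin n → Ω) (i : Fin n) {u : Ω} (hu : u ∈ Submodule.span K (x '' {i}ᶜ)) :
    ∃ c : Fin n → K, c i = 0 ∧ ∑ j, c j • x j = u := by
  classical
  induction hu using Submodule.span_induction with
  | mem y hy =>
    obtain ⟨j, hj, rfl⟩ := hy
    refine ⟨Pi.single j 1, ?_, ?_⟩
    · exact Pi.single_eq_of_ne (fun h => hj h.symm) _
    · rw [Finset.sum_eq_single j]
      · simp
      · intro k _ hk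
        simp [Pi.single_eq_of_ne hk]
      · intro h
        exact absurd (Finset.mem_univ j) h
  | zero => exact ⟨0, rfl, by simp⟩
  | add y z _ _ h1 h2 =>
    obtain ⟨c, h3, h4⟩ := h1
    obtain ⟨c', h3', h4'⟩ := h2
    refine ⟨c + c', by simp [h3, h3'], ?_⟩
    rw [← h4, ← h4', ← Finset.sum_add_distrib]
    exact Finset.sum_congr rfl fun j _ => by rw [Pi.add_apply, add_smul]
  | smul a y _ h1 =>
    obtain ⟨c, h3, h4⟩ := h1
    refine ⟨a • c, by simp [h3], ?_⟩
    rw [← h4, Finset.smul_sum]
    exact Finset.sum_congr rfl fun j _ => by rw [Pi.smul_apply, smul_eq_mul, mul_smul]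

theorem free_FF : Free E (FF hK E) := by
  intro n x hx hli
  apply indep_of_forall
  intro i hi
  have h1 : x i ∈ (Mt Ω).closure ((core hK E : Set Ω) ∪ x '' {i}ᶜ) := by
    refine (cl_sub (union_subset ?_ ?_)) hi
    · exact cl_mono subset_union_left
    · exact subset_union_right.trans (subset_cl _)
  obtain ⟨X, hX1, hX2, _, hX3⟩ := exists_subset_finite_closure_of_subset_closure (M := Mt Ω)
    (finite_singleton (x i)) (singleton_subset_iff.mpr h1)
  have hfd : FiniteDimensional K (Submodule.span K X) := FiniteDimensional.span_of_finite K hX2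
  have hVE : Submodule.span K X ≤ E := by
    rw [Submodule.span_le]
    intro z hz
    rcases hX1 hz with h | ⟨j, _, rfl⟩
    · exact core_le hK h
    · exact hx j
  obtain ⟨v, hv, h2⟩ := exists_core_elt hK hVE (hx i) (cl_mono Submodule.subset_span (hX3 rfl))
  have h3 : Submodule.span K X ≤ core hK E ⊔ Submodule.span K (x '' {i}ᶜ) := by
    rw [Submodule.span_le]
    intro z hz
    rcases hX1 hz with h | h
    · exact Submodule.mem_sup_left h
    · exact Submodule.mem_sup_right (Submodule.subset_span h)
  obtain ⟨w, hw, u, hu, hwu⟩ := Submodule.mem_sup.mp (h3 hv)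
  have h4 : x i + u ∈ core hK E := by
    have := sub_mem h2 hw
    rwa [← hwu, show x i + (w + u) - w = x i + u by ring] at this
  obtain ⟨c, hc0, hc⟩ := exists_coeff x i hu
  classical
  have h7 := hli (fun j => c j + if j = i then 1 else 0) (by
    simp only [add_smul, Finset.sum_add_distrib, ite_smul, one_smul, zero_smul, Finset.sum_ite_eq',
      Finset.mem_univ, if_true]
    rw [hc, add_comm]
    exact core_sub_FF hK h4)
  have h8 := congrFun h7 i
  simp [hc0] at h8

/-- an algebraically closed field as a space over `K` -/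
noncomputable def toK {F : IntermediateField ℚ Ω} (hF : Clos F) : Submodule K Ω where
  carrier := F
  add_mem' := F.add_mem
  zero_mem' := F.zero_mem
  smul_mem' a z hz := by
    rw [Algebra.smul_def]
    refine F.mul_mem (hF _ ?_) hz
    exact (hK a).extendScalars (algebraMap ℚ F).injective

include hK in
theorem scalar_mem {F : IntermediateField ℚ Ω} (hF : Clos F) (a : K) : algebraMap K Ω a ∈ F :=
  hF _ ((hK a).extendScalars (algebraMap ℚ F).injective)

include hK in
theorem exists_basis_compl {F : IntermediateField ℚ Ω} (hF : Clos F) (V : Submodule K Ω)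
    [FiniteDimensional K V] :
    ∃ q ≤ V, (V ⊓ toK hK hF) ⊓ q = ⊥ ∧ (V ⊓ toK hK hF) ⊔ q = V ∧
      ∃ (k : ℕ) (y : Basis (Fin k) K q), (∀ c : Fin k → K, ∑ i, c i • (y i : Ω) ∈ F → c = 0) ∧
        finrank K V = finrank K (V ⊓ toK hK hF : Submodule K Ω) + k := by
  obtain ⟨q, hq, h1, h2⟩ := exists_rel_compl (inf_le_left : V ⊓ toK hK hF ≤ V)
  have hfq : FiniteDimensional K q := Submodule.finiteDimensional_of_le hq
  have hfi : FiniteDimensional K (V ⊓ toK hK hF : Submodule K Ω) := Submodule.finiteDimensional_inf_left _ _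
  refine ⟨q, hq, h1, h2, _, finBasis K q, ?_, ?_⟩
  · intro c hc
    have h3 : ∑ i, c i • (finBasis K q i : Ω) ∈ q :=
      Submodule.sum_mem _ fun i _ => q.smul_mem _ (finBasis K q i).2
    have h4 : ∑ i, c i • (finBasis K q i : Ω) ∈ (V ⊓ toK hK hF) ⊓ q := ⟨⟨hq h3, hc⟩, h3⟩
    rw [h1, Submodule.mem_bot] at h4
    have h5 : ∑ i, c i • finBasis K q i = 0 := by
      apply Subtype.ext
      rw [Submodule.coe_sum]
      exact h4
    funext i
    exact Fintype.linearIndependent_iff.mp (finBasis K q).linearIndependent c h5 i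
  · have h3 := Submodule.finrank_sup_add_finrank_inf_eq (V ⊓ toK hK hF) q
    rw [h1, h2, finrank_bot] at h3
    omega

theorem FF_le {F : IntermediateField ℚ Ω} (hF : Clos F) (h : Free E F) : FF hK E ≤ F := by
  have h0 : (core hK E : Set Ω) ⊆ F := by
    rintro x ⟨T, hT, hx⟩
    by_contra hxF
    have := hT.1
    obtain ⟨q, hq, h1, h2, k, y, h3, h4⟩ := exists_basis_compl hK hF T
    have hfi : FiniteDimensional K (T ⊓ toK hK hF : Submodule K Ω) := Submodule.finiteDimensional_inf_left _ _
    have h5 := h k (fun i => (y i : Ω)) (fun i => hT.2.1 (hq (y i).2)) h3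
    have h6 := rank_of_indep (T := ((T ⊓ toK hK hF : Submodule K Ω) : Set Ω)) (fun z hz => hz.2) k _ h5
    have h7 : (Mt Ω).eRk (((T ⊓ toK hK hF : Submodule K Ω) : Set Ω) ∪ range fun i => (y i : Ω)) ≤
        (Mt Ω).eRk (T : Set Ω) := by
      apply (Mt Ω).eRk_mono
      rintro z (hz | ⟨i, rfl⟩)
      · exact hz.1
      · exact hq (y i).2
    have h8 := h6.trans h7
    rw [← coe_r hK, ← coe_r hK] at h8
    have h9 : r (T ⊓ toK hK hF) + k ≤ r T := by exact_mod_cast h8
    have h10 : T ⊓ toK hK hF < T := lt_of_le_of_ne inf_le_left fun h => hxF (by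
      rw [← h] at hx
      exact hx.2)
    have h11 := hT.2.2 _ h10
    unfold d at h11
    omega
  exact fun x hx => hF.cl_sub h0 hx

/-- The locus over `F` of every point with coordinates in `E` is the translate, by a point with coordinates in `E` and in
`F`, of a linear space defined over `K`. -/
def LinLoc (E : Submodule K Ω) (F : IntermediateField ℚ Ω) : Prop :=
  ∀ (n : ℕ) (x : Fin n → Ω), (∀ i, x i ∈ E) →
    ∃ (k : ℕ) (b : Fin n → F) (a : Fin k → Fin n → K) (y : Fin k → Ω),
      (∀ i, (b i : Ω) ∈ E) ∧ (∀ j, y j ∈ E) ∧ (∀ i, x i = b i + ∑ j, a j i • y j) ∧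
      ∀ p : MvPolynomial (Fin n) F, MvPolynomial.aeval x p = 0 →
        ∀ t : Fin k → Ω, MvPolynomial.aeval (fun i => (b i : Ω) + ∑ j, a j i • t j) p = 0

include hK in
theorem linLoc_of_free {F : IntermediateField ℚ Ω} (hF : Clos F) (h : Free E F) : LinLoc E F := by
  intro n x hx
  have hfd : FiniteDimensional K (Submodule.span K (range x)) :=
    FiniteDimensional.span_of_finite K (finite_range x)
  obtain ⟨q, hq, h1, h2, k, y, h3, h4⟩ := exists_basis_compl hK hF (Submodule.span K (range x))
  have hV : Submodule.span K (range x) ≤ E := by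
    rw [Submodule.span_le]
    rintro _ ⟨i, rfl⟩
    exact hx i
  have h5 : ∀ i, ∃ b ∈ Submodule.span K (range x) ⊓ toK hK hF, ∃ z ∈ q, b + z = x i := fun i => by
    apply Submodule.mem_sup.mp
    rw [h2]
    exact Submodule.subset_span ⟨i, rfl⟩
  choose b hb z hz hbz using h5
  have h6 : ∀ i, ∃ c : Fin k → K, ∑ j, c j • (y j : Ω) = z i := by
    intro i
    refine ⟨fun j => y.repr ⟨z i, hz i⟩ j, ?_⟩
    have := congrArg Subtype.val (y.sum_repr ⟨z i, hz i⟩)
    rw [Submodule.coe_sum] at this
    exact this
  choose c hc using h6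
  refine ⟨k, fun i => ⟨b i, (hb i).2⟩, fun j i => c i j, fun j => (y j : Ω), fun i => hV (hb i).1,
    fun j => hV (hq (y j).2), fun i => ?_, ?_⟩
  · show x i = b i + _
    rw [hc, hbz]
  · intro p hp t
    have hind := h k (fun i => (y i : Ω)) (fun i => hV (hq (y i).2)) h3
    let g : Fin n → MvPolynomial (Fin k) F := fun i =>
      MvPolynomial.C ⟨b i, (hb i).2⟩ +
        ∑ j, MvPolynomial.C ⟨algebraMap K Ω (c i j), scalar_mem hK hF _⟩ * MvPolynomial.X j
    have hg : ∀ (u : Fin k → Ω) i, MvPolynomial.aeval u (g i) = b i + ∑ j, c i j • u j := by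
      intro u i
      simp only [g, map_add, map_sum, map_mul, MvPolynomial.aeval_C, MvPolynomial.aeval_X]
      congr 1
      apply Finset.sum_congr rfl
      intro j _
      rw [Algebra.smul_def]
      rfl
    have h7 : MvPolynomial.aeval (fun j => (y j : Ω)) (MvPolynomial.bind₁ g p) = 0 := by
      rw [MvPolynomial.aeval_bind₁]
      have : (fun i => MvPolynomial.aeval (fun j => (y j : Ω)) (g i)) = x := by
        funext i
        rw [hg, hc, hbz]
      rw [this]
      exact hp
    have h8 : MvPolynomial.bind₁ g p = 0 := by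
      rw [algebraicIndependent_iff] at hind
      exact hind _ h7
    have h9 := congrArg (MvPolynomial.aeval t) h8
    rw [MvPolynomial.aeval_bind₁, map_zero] at h9
    have : (fun i => MvPolynomial.aeval t (g i)) = fun i => b i + ∑ j, c i j • t j := by
      funext i
      rw [hg]
    rw [this] at h9
    exact h9

include hK in
theorem free_of_linLoc {F : IntermediateField ℚ Ω} (hF : Clos F) (h : LinLoc E F) : Free E F := by
  classical
  intro n x hx hli
  obtain ⟨k, b, a, y, _, _, h3, h4⟩ := h n x hx
  -- the directions span everything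
  have h5 : Submodule.span K (range a) = ⊤ := by
    by_contra hne
    obtain ⟨f, hf0, hf⟩ := Submodule.exists_dual_map_eq_bot_of_lt_top (lt_top_iff_ne_top.mpr hne) inferInstance
    apply hf0
    have h6 : ∀ j, f (a j) = 0 := by
      intro j
      have : f (a j) ∈ (Submodule.span K (range a)).map f := ⟨a j, Submodule.subset_span ⟨j, rfl⟩, rfl⟩
      rw [hf] at this
      exact (Submodule.mem_bot K).mp this
    have h7 : ∀ v : Fin n → K, f v = ∑ i, f (Pi.single i 1) * v i := by
      intro v
      conv_lhs => rw [pi_eq_sum_univ' v]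
      rw [map_sum]
      apply Finset.sum_congr rfl
      intro i _
      rw [map_smul, smul_eq_mul, mul_comm]
    have h8 := hli (fun i => f (Pi.single i 1)) (by
      have : ∑ i, f (Pi.single i 1) • x i = ∑ i, f (Pi.single i 1) • (b i : Ω) := by
        have h9 : ∀ i, x i = b i + ∑ j, a j i • y j := h3
        calc ∑ i, f (Pi.single i 1) • x i
            = ∑ i, (f (Pi.single i 1) • (b i : Ω) + ∑ j, (f (Pi.single i 1) * a j i) • y j) := by
              apply Finset.sum_congr rfl
              intro i _
              rw [h9 i, smul_add, Finset.smul_sum]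
              congr 1
              exact Finset.sum_congr rfl fun j _ => by rw [smul_smul]
          _ = ∑ i, f (Pi.single i 1) • (b i : Ω) + ∑ j, (∑ i, f (Pi.single i 1) * a j i) • y j := by
              rw [Finset.sum_add_distrib, Finset.sum_comm]
              congr 1
              exact Finset.sum_congr rfl fun j _ => by rw [Finset.sum_smul]
          _ = _ := by
              have : ∀ j, ∑ i, f (Pi.single i 1) * a j i = 0 := fun j => by rw [← h7, h6]
              simp [this]
      rw [this]
      exact (toK hK hF).sum_mem fun i _ => (toK hK hF).smul_mem _ (b i).2)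
    apply LinearMap.ext
    intro v
    rw [h7 v]
    simp only [LinearMap.zero_apply]
    apply Finset.sum_eq_zero
    intro i _
    rw [show f (Pi.single i 1) = 0 from congrFun h8 i, zero_mul]
  have h6 : ∀ i : Fin n, ∃ m : Fin k → K, ∑ j, m j • a j = Pi.single i 1 := by
    intro i
    apply (Submodule.mem_span_range_iff_exists_fun K).mp
    rw [h5]
    exact Submodule.mem_top
  choose m hm using h6
  rw [algebraicIndependent_iff]
  intro p hp
  have h7 : ∀ u : Fin n → Ω, MvPolynomial.aeval u p = 0 := by
    intro u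
    have h8 := h4 p hp (fun j => ∑ i, m i j • (u i - b i))
    have h9 : (fun i => (b i : Ω) + ∑ j, a j i • ∑ i', m i' j • (u i' - b i')) = u := by
      funext i
      have : ∑ j, a j i • ∑ i', m i' j • (u i' - b i') = u i - b i := by
        calc ∑ j, a j i • ∑ i', m i' j • (u i' - b i')
            = ∑ i', (∑ j, m i' j * a j i) • (u i' - (b i' : Ω)) := by
              simp only [Finset.smul_sum, Finset.sum_smul]
              rw [Finset.sum_comm]
              exact Finset.sum_congr rfl fun i' _ => Finset.sum_congr rfl fun j _ => by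
                rw [smul_smul, mul_comm]
          _ = ∑ i', (Pi.single i' (1 : K) : Fin n → K) i • (u i' - (b i' : Ω)) := by
              refine Finset.sum_congr rfl fun i' _ => ?_
              rw [← hm i']
              simp
          _ = u i - b i := by
              rw [Finset.sum_eq_single i]
              · simp
              · intro i' _ hi
                rw [Pi.single_eq_of_ne hi.symm, zero_smul]
              · intro hi
                exact absurd (Finset.mem_univ i) hi
      rw [this]
      ring
    rw [h9] at h8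
    exact h8
  have h8 : MvPolynomial.map (algebraMap F Ω) p = 0 := by
    apply MvPolynomial.funext
    intro u
    rw [MvPolynomial.eval_map, map_zero]
    exact h7 u
  exact MvPolynomial.map_injective _ (algebraMap F Ω).injective (by rw [h8, map_zero])

theorem cl_image (σ : Ω ≃ₐ[ℚ] Ω) {Z : Set Ω} {a : Ω} (ha : a ∈ (Mt Ω).closure Z) :
    σ a ∈ (Mt Ω).closure (σ '' Z) := by
  rw [mem_cl] at ha
  obtain ⟨p, hp0, hp⟩ := ha
  have hp0' : p.map (algebraMap _ Ω) ≠ 0 :=
    (Polynomial.map_ne_zero_iff (FaithfulSMul.algebraMap_injective _ _)).mpr hp0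
  refine cl_poly ((p.map (algebraMap _ Ω)).map (σ : Ω →+* Ω)) ?_ (fun i => ?_) ?_
  · exact (Polynomial.map_ne_zero_iff σ.injective).mpr hp0'
  · rw [Polynomial.coeff_map, Polynomial.coeff_map]
    have h1 : ∀ y ∈ Algebra.adjoin ℚ Z, σ y ∈ (Mt Ω).closure (σ '' Z) := by
      intro y hy
      induction hy using Algebra.adjoin_induction with
      | mem y hy => exact subset_cl _ ⟨y, hy, rfl⟩
      | algebraMap n =>
        rw [AlgEquiv.commutes]
        exact cl_alg (isAlgebraic_algebraMap n)
      | add _ _ h1 h2 h3 h4 => rw [map_add]; exact cl_add h3 h4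
      | mul _ _ h1 h2 h3 h4 => rw [map_mul]; exact cl_mul h3 h4
    exact h1 _ (p.coeff i).2
  · have h2 : (p.map (algebraMap _ Ω)).eval a = 0 := by
      rw [Polynomial.eval_map]
      exact hp
    have h3 : σ a = (σ : Ω →+* Ω) a := rfl
    rw [h3, Polynomial.eval_map_apply, h2, map_zero]

/-- The canonical field is invariant under the automorphisms which preserve `E` and `K`. -/
theorem FF_map (σ : Ω ≃ₐ[ℚ] Ω) (hσE : ∀ x ∈ E, σ.symm x ∈ E)
    (hσK : ∀ a : K, ∃ a' : K, algebraMap K Ω a' = σ (algebraMap K Ω a)) {x : Ω} (hx : x ∈ FF hK E) :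
    σ.symm x ∈ FF hK E := by
  -- the image of the field
  let F' : IntermediateField ℚ Ω := (FF hK E).map (σ : Ω →ₐ[ℚ] Ω)
  have hmem : ∀ {z : Ω}, z ∈ F' ↔ σ.symm z ∈ FF hK E := by
    intro z
    constructor
    · rintro ⟨w, hw, rfl⟩
      have h : σ.symm ((σ : Ω →ₐ[ℚ] Ω) w) = w := σ.symm_apply_apply w
      exact h.symm ▸ hw
    · intro hz
      exact ⟨_, hz, σ.apply_symm_apply z⟩
  have h1 : Clos F' := by
    intro z hz
    rw [hmem]
    have h2 := cl_image σ.symm (cl_of_isAlgebraic hz)
    refine (clos_FF hK).cl_sub ?_ h2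
    rintro _ ⟨w, hw, rfl⟩
    exact hmem.mp hw
  have h2 : Free E F' := by
    intro n x hx hli
    have h3 := free_FF hK n (fun i => σ.symm (x i)) (fun i => hσE _ (hx i)) (by
      intro c hc
      choose c' hc' using fun i => hσK (c i)
      have h4 := hli c' (by
        rw [hmem]
        have : σ.symm (∑ i, c' i • x i) = ∑ i, c i • σ.symm (x i) := by
          rw [map_sum]
          refine Finset.sum_congr rfl fun i _ => ?_
          rw [Algebra.smul_def, Algebra.smul_def, map_mul, hc', AlgEquiv.symm_apply_apply]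
        rw [this]
        exact hc)
      funext i
      have h5 := hc' i
      rw [h4, Pi.zero_apply, map_zero] at h5
      have h6 : algebraMap K Ω (c i) = 0 := by
        apply σ.injective
        rw [← h5, map_zero]
      exact (map_eq_zero _).mp h6)
    apply indep_of_forall
    intro i hi
    refine notMem_of_indep h3 i ?_
    refine cl_mono ?_ (cl_image σ.symm hi)
    rintro _ ⟨w, hw | ⟨j, hj, rfl⟩, rfl⟩
    · exact Or.inl (hmem.mp hw)
    · exact Or.inr ⟨j, hj, rfl⟩
  have h3 := FF_le hK h1 h2 hx
  exact hmem.mp h3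

/-- Bounded defect. -/
theorem core_finite_iff : FiniteDimensional K (core hK E) ↔
    ∃ C : ℤ, ∀ V : Submodule K Ω, FiniteDimensional K V → V ≤ E → d V ≤ C := by
  constructor
  · intro hfd
    refine ⟨d (core hK E), fun V hV hVE => ?_⟩
    obtain ⟨T, h1, h2, h3⟩ := exists_tight hK _ V hV hVE rfl
    rw [← h3]
    exact d_mono hK (h2.le_core hK)
  · rintro ⟨C, hC⟩
    obtain ⟨m, ⟨T, hT, hd⟩, hmax⟩ := Int.exists_greatest_of_bdd
      (P := fun m : ℤ => ∃ T : Submodule K Ω, Tight E T ∧ d T = m)
      ⟨C, by rintro z ⟨V, hV, rfl⟩; exact hC V hV.1 hV.2.1⟩ ⟨_, ⊥, tight_bot hK, rfl⟩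
    have := hT.1
    have h1 : core hK E ≤ T := by
      rintro x ⟨T', hT', hx⟩
      by_contra hxT
      have h2 : T < T ⊔ T' := lt_of_le_of_ne le_sup_left fun h => hxT (by
        rw [h]
        exact Submodule.mem_sup_right hx)
      have h3 := (hT.sup hK hT').2.2 _ h2
      have h4 := hmax _ ⟨_, hT.sup hK hT', rfl⟩
      omega
    exact Submodule.finiteDimensional_of_le h1

/-- The elements of the core are those which are algebraic over every complementary hyperplane. -/
theorem mem_FF_iff {x : Ω} (hx : x ∈ E) : x ∈ FF hK E ↔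
    ∀ H ≤ E, x ∉ H → H ⊔ Submodule.span K {x} = E → x ∈ (Mt Ω).closure (H : Set Ω) := by
  constructor
  · intro hxF H hH hxH hsup
    obtain ⟨T, hT, hxT⟩ := mem_core_of_cl hK hx hxF
    have := hT.1
    have hfi : FiniteDimensional K (T ⊓ H : Submodule K Ω) := Submodule.finiteDimensional_inf_left _ _
    have h1 : T ⊓ H < T := lt_of_le_of_ne inf_le_left fun h => hxH (by
      rw [← h] at hxT
      exact hxT.2)
    have h2 : T = (T ⊓ H) ⊔ Submodule.span K {x} := by
      apply le_antisymm
      · intro t ht
        obtain ⟨h, hh, w, hw, hhw⟩ := Submodule.mem_sup.mp (hsup ▸ hT.2.1 ht : t ∈ H ⊔ Submodule.span K {x})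
        obtain ⟨c, rfl⟩ := Submodule.mem_span_singleton.mp hw
        refine Submodule.mem_sup.mpr ⟨h, ⟨?_, hh⟩, c • x, hw, hhw⟩
        have : h = t - c • x := by rw [← hhw]; ring
        rw [this]
        exact sub_mem ht (T.smul_mem c hxT)
      · exact sup_le inf_le_left ((Submodule.span_singleton_le_iff_mem _ _).mpr hxT)
    have h3 : finrank K T ≤ finrank K (T ⊓ H : Submodule K Ω) + 1 := by
      have h4 := Submodule.finrank_sup_add_finrank_inf_eq (T ⊓ H) (Submodule.span K {x})
      rw [← h2] at h4
      have h5 : finrank K (Submodule.span K {x}) ≤ 1 := by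
        have := finrank_span_le_card (R := K) ({x} : Set Ω)
        simpa using this
      omega
    have h4 := hT.2.2 _ h1
    have h5 : r T ≤ r (T ⊓ H) := by
      unfold d at h4
      omega
    by_contra hcon
    have h6 : x ∉ (Mt Ω).closure ((T ⊓ H : Submodule K Ω) : Set Ω) := fun h =>
      hcon (cl_mono inter_subset_right h)
    have h7 := (Mt Ω).eRk_insert_eq_add_one (X := ((T ⊓ H : Submodule K Ω) : Set Ω)) ⟨mem_univ x, h6⟩
    have h8 : (Mt Ω).eRk (insert x ((T ⊓ H : Submodule K Ω) : Set Ω)) ≤ (Mt Ω).eRk (T : Set Ω) :=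
      (Mt Ω).eRk_mono (insert_subset hxT inter_subset_left)
    rw [h7, ← coe_r hK, ← coe_r hK] at h8
    have h9 : r (T ⊓ H) + 1 ≤ r T := by exact_mod_cast h8
    omega
  · intro h
    by_contra hxF
    have hxc : x ∉ core hK E := fun h => hxF (core_sub_FF hK h)
    have h0 : core hK E ⊔ Submodule.span K {x} ≤ E :=
      sup_le (core_le hK) ((Submodule.span_singleton_le_iff_mem _ _).mpr hx)
    obtain ⟨q, hq, h1, h2⟩ := exists_rel_compl h0
    have hHE : core hK E ⊔ q ≤ E := sup_le (core_le hK) hq
    have hxH : x ∉ core hK E ⊔ q := by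
      intro hxH
      obtain ⟨c, hc, w, hw, hcw⟩ := Submodule.mem_sup.mp hxH
      have h3 : w ∈ (core hK E ⊔ Submodule.span K {x}) ⊓ q := by
        refine ⟨?_, hw⟩
        have : w = x - c := by rw [← hcw]; ring
        rw [this]
        exact sub_mem (Submodule.mem_sup_right (Submodule.mem_span_singleton_self x))
          (Submodule.mem_sup_left hc)
      rw [h1, Submodule.mem_bot] at h3
      rw [h3, add_zero] at hcw
      rw [hcw] at hc
      exact hxc hc
    have h3 := h _ hHE hxH (by
      rw [sup_right_comm]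
      exact h2)
    obtain ⟨X, hX1, hX2, _, hX3⟩ := exists_subset_finite_closure_of_subset_closure (M := Mt Ω)
      (finite_singleton x) (singleton_subset_iff.mpr h3)
    have hfd : FiniteDimensional K (Submodule.span K X) := FiniteDimensional.span_of_finite K hX2
    have h4 : Submodule.span K X ≤ core hK E ⊔ q := Submodule.span_le.mpr hX1
    obtain ⟨v, hv, h5⟩ := exists_core_elt hK (h4.trans hHE) hx (cl_mono Submodule.subset_span (hX3 rfl))
    have h6 := sub_mem (Submodule.mem_sup_left h5 : x + v ∈ core hK E ⊔ q) (h4 hv)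
    rw [add_sub_cancel_right] at h6
    exact hxH h6

end Pool.Agent.Q280.LF
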