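import Pool.Agent.Q280.LF.Baker
import Pool.Agent.W245.PB.BakerThmP

/-!
# The Iwasawa logarithm: uniqueness, Galois action and the theorem of Brumer
-/

set_option autoImplicit false

open Matroid Set Module

namespace Pool.Agent.Q280.LF

open Pool.Agent.W245.PB (IsIwasawaLog)

variable {p : ℕ} [hp : Fact p.Prime] {L L' : PadicAlgCl p → PadicAlgCl p}

/-- the logarithms of the algebraic numbers -/
def plogs (L : PadicAlgCl p → PadicAlgCl p) : Set (PadicAlgCl p) :=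
  {z | ∃ α : PadicAlgCl p, α ≠ 0 ∧ IsAlgebraic ℚ α ∧ z = L α}

theorem log_unique (hL : IsIwasawaLog p L) (hL' : IsIwasawaLog p L') {x : PadicAlgCl p} (hx : x ≠ 0) :
    L x = L' x := by
  have hpne : (p : PadicAlgCl p) ≠ 0 := Nat.cast_ne_zero.2 hp.out.ne_zero
  obtain ⟨m, r, hm, hnear⟩ := Pool.Agent.W245.PB.exists_near (p := p) hx
  have hp1 : (1 : ℝ) < p := by exact_mod_cast hp.out.one_lt
  have h3 : (1 : ℝ) < (p : ℝ) ^ 3 := one_lt_pow₀ hp1 (by norm_num)
  have hz : ‖x ^ m * (p : PadicAlgCl p) ^ r - 1‖ < 1 := by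
    by_contra hcon
    push Not at hcon
    nlinarith
  have h4 : L (x ^ m * (p : PadicAlgCl p) ^ r) = L' (x ^ m * (p : PadicAlgCl p) ^ r) := by
    have h5 := hL.ser _ hz
    have h6 := hL'.ser _ hz
    rw [add_sub_cancel] at h5 h6
    exact h5.unique h6
  rw [hL.mul _ _ (pow_ne_zero _ hx) (zpow_ne_zero _ hpne), hL'.mul _ _ (pow_ne_zero _ hx) (zpow_ne_zero _ hpne),
    hL.pow hx, hL'.pow hx, hL.zpow hpne, hL'.zpow hpne, hL.prime, hL'.prime, mul_zero, add_zero, add_zero] at h4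
  exact mul_left_cancel₀ (Nat.cast_ne_zero.mpr hm.ne') h4

theorem norm_auto (σ : PadicAlgCl p ≃ₐ[ℚ_[p]] PadicAlgCl p) (x : PadicAlgCl p) : ‖σ x‖ = ‖x‖ :=
  (spectralNorm_eq_of_equiv σ x).symm

theorem log_auto (hL : IsIwasawaLog p L) (σ : PadicAlgCl p ≃ₐ[ℚ_[p]] PadicAlgCl p) {x : PadicAlgCl p}
    (hx : x ≠ 0) : L (σ x) = σ (L x) := by
  have h1 : IsIwasawaLog p (fun x => σ.symm (L (σ x))) := by
    refine ⟨fun x y hx hy => ?_, ?_, fun z hz => ?_⟩
    · show σ.symm (L (σ (x * y))) = _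
      rw [map_mul, hL.mul _ _ ((map_ne_zero σ).mpr hx) ((map_ne_zero σ).mpr hy), map_add]
    · show σ.symm (L (σ ((p : ℕ) : PadicAlgCl p))) = 0
      rw [map_natCast, hL.prime, map_zero]
    · have h2 := hL.ser (σ z) (by rw [norm_auto]; exact hz)
      have hc : Continuous (σ.symm : PadicAlgCl p → PadicAlgCl p) :=
        (AddMonoidHomClass.isometry_of_norm σ.symm fun x => norm_auto σ.symm x).continuous
      have h3 := h2.map σ.symm hc
      have h4 : ((σ.symm : PadicAlgCl p → PadicAlgCl p) ∘ fun n : ℕ => (-1 : PadicAlgCl p) ^ n * (σ z) ^ (n + 1) /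
          ((n : PadicAlgCl p) + 1)) = fun n : ℕ => (-1 : PadicAlgCl p) ^ n * z ^ (n + 1) / ((n : PadicAlgCl p) + 1) := by
        funext n
        simp only [Function.comp_apply, map_div₀, map_mul, map_pow, map_neg, map_one, map_add, map_natCast,
          AlgEquiv.symm_apply_apply]
      rw [h4] at h3
      have h5 : σ (1 + z) = 1 + σ z := by rw [map_add, map_one]
      show HasSum _ (σ.symm (L (σ (1 + z))))
      rw [h5]
      exact h3
  have h2 := log_unique hL h1 hx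
  rw [h2]
  exact (σ.apply_symm_apply _).symm

theorem baker_plogs (hL : IsIwasawaLog p L) : BakerProp (plogs L) := by
  intro n l hl hli c₀ c hc₀ hc hsum
  choose α hα0 halg hα using hl
  have h1 : l = fun i => L (α i) := funext hα
  subst h1
  exact Pool.Agent.W245.PB.brumer hL α hα0 halg hli c₀ hc₀ c hc hsum

/-- the automorphism over `ℚ` -/
noncomputable def autoQ (σ : PadicAlgCl p ≃ₐ[ℚ_[p]] PadicAlgCl p) : PadicAlgCl p ≃ₐ[ℚ] PadicAlgCl p :=
  AlgEquiv.ofRingEquiv (f := (σ : PadicAlgCl p ≃+* PadicAlgCl p)) fun q => by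
    rw [eq_ratCast]
    exact map_ratCast _ q

theorem plogs_auto (hL : IsIwasawaLog p L) (σ : PadicAlgCl p ≃ₐ[ℚ_[p]] PadicAlgCl p) {z : PadicAlgCl p}
    (hz : z ∈ plogs L) : σ.symm z ∈ plogs L := by
  obtain ⟨α, h1, h2, rfl⟩ := hz
  refine ⟨σ.symm α, (map_ne_zero σ.symm).mpr h1, ?_, (log_auto hL σ.symm h1).symm⟩
  exact h2.algHom (autoQ σ.symm : PadicAlgCl p →ₐ[ℚ] PadicAlgCl p)

theorem algNum : AlgNum (algebraicClosure ℚ (PadicAlgCl p)) (PadicAlgCl p) :=
  ⟨fun a => mem_algebraicClosure_iff.mp a.2, fun z hz => ⟨⟨z, mem_algebraicClosure_iff.mpr hz⟩, rfl⟩⟩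

end Pool.Agent.Q280.LF
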