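import Pool.Agent.Q280.LF.Four
import Pool.Agent.Y921.SR.Pencil

/-!
# Singular matrices with entries in a space and the canonical field
-/

set_option autoImplicit false
set_option linter.unusedSectionVars false

open Module Matrix

namespace Pool.Agent.Q280.LF

open Pool.Agent.Y921.SR

section Main

variable {K A σ : Type*} [Field K] [Field A] [CharZero K] [CharZero A] [Algebra K A] [Fintype σ]

/-- **Identically singular families** (the proof of `Pool.Agent.Y921.SR.family`, with the sizes). -/
theorem family' {V : Submodule K A} {n : ℕ} (hV : ∀ m : ℕ, 1 ≤ m → m < n →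
      ∀ M : Matrix (Fin m) (Fin m) A, (∀ i j, M i j ∈ V) → M.det = 0 →
        ∃ w v : Fin m → K, w ≠ 0 ∧ v ≠ 0 ∧ ∑ i, ∑ j, (w i * v j) • M i j = 0)
    (W : Matrix (Fin n) (Fin n) A) (hW : ∀ i j, W i j ∈ V) (C : σ → Matrix (Fin n) (Fin n) K)
    {p₀ : σ} (hp₀ : C p₀ ≠ 0)
    (hdet : ∀ X : σ → A, (W + ∑ p, X p • (C p).map (algebraMap K A)).det = 0) :
    ∃ w v : Fin n → K, w ≠ 0 ∧ v ≠ 0 ∧ bil W w v = 0 ∧ ∀ p, w ⬝ᵥ (C p *ᵥ v) = 0 := by
  classical
  have hinfK : Infinite K := inferInstance
  have hinfA : Infinite A := inferInstance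
  set 𝒞 : Submodule K (Matrix (Fin n) (Fin n) K) := Submodule.span K (Set.range C) with h𝒞
  obtain ⟨r, hr, ⟨C0, hC0, P, Q, hE⟩, hmax⟩ := exists_max 𝒞
  obtain ⟨a, ha⟩ := (Submodule.mem_span_range_iff_exists_fun K).1 hC0
  obtain ⟨w, hwi, hw⟩ := exists_rows hr (C0 * Q)
  obtain ⟨v, hvi, hv⟩ := exists_cols hr (P * C0)
  rw [← Matrix.mul_assoc] at hw
  have horth : ∀ D ∈ 𝒞, w * D * v = 0 := fun D hD => orth hmax hC0 hE w v hw hv hD
  -- the pencil in the direction `C0`
  set φ := algebraMap K A with hφ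
  have hC0A : ∀ y : A, (W + y • C0.map φ).det = 0 := by
    intro y
    rw [← hdet fun p => y * φ (a p)]
    congr 2
    rw [← ha]
    ext i j
    simp only [Matrix.smul_apply, Matrix.map_apply, Matrix.sum_apply, smul_eq_mul, map_sum, Finset.mul_sum, map_mul]
    exact Finset.sum_congr rfl fun p _ => by ring
  have hmm : ∀ {s t u : ℕ} (X : Matrix (Fin s) (Fin t) K) (Y : Matrix (Fin t) (Fin u) K),
      (X * Y).map φ = X.map φ * Y.map φ := fun X Y => Matrix.map_mul
  have hz0 : ∀ {s t : ℕ}, ((0 : Matrix (Fin s) (Fin t) K).map φ) = 0 := by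
    intro s t
    ext i j
    simp
  have hEA : ((P * C0 * Q).map φ).det ≠ 0 := by
    have h1 := RingHom.map_det φ (P * C0 * Q)
    rw [RingHom.mapMatrix_apply] at h1
    rw [← h1]
    exact (map_ne_zero φ).2 hE
  have hs : (w.map φ * W * v.map φ).det = 0 := by
    have h0 : (fromBlocks ((P * C0 * Q).map φ) (P.map φ * W * v.map φ) 0 (w.map φ * W * v.map φ)).det = 0 := by
      apply det_pencil _ (fromBlocks (P.map φ * W * Q.map φ) 0 (w.map φ * W * Q.map φ) 0)
      intro z hz
      have h1 : (fromRows (P.map φ) (w.map φ) * (W + z⁻¹ • C0.map φ) * fromCols (Q.map φ) (v.map φ)).det = 0 := by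
        let e : Fin r ⊕ Fin (n - r) ≃ Fin n := finSumFinEquiv.trans (finCongr (by omega))
        have h2 : fromRows (P.map φ) (w.map φ) * (W + z⁻¹ • C0.map φ) * fromCols (Q.map φ) (v.map φ) =
            ((fromRows (P.map φ) (w.map φ)).submatrix id e * ((W + z⁻¹ • C0.map φ).submatrix e e) *
              (fromCols (Q.map φ) (v.map φ)).submatrix e id) := by
          rw [Matrix.submatrix_mul_equiv, Matrix.submatrix_mul_equiv, Matrix.submatrix_id_id]
        rw [h2, det_mul, det_mul, Matrix.det_submatrix_equiv_self, hC0A, mul_zero, zero_mul]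
      have h3 : fromBlocks ((P * C0 * Q).map φ) (P.map φ * W * v.map φ) 0 (w.map φ * W * v.map φ) +
          z • fromBlocks (P.map φ * W * Q.map φ) 0 (w.map φ * W * Q.map φ) 0 =
          (fromRows (P.map φ) (w.map φ) * (W + z⁻¹ • C0.map φ) * fromCols (Q.map φ) (v.map φ)) *
            fromBlocks (z • 1) 0 0 1 := by
        rw [border, fromBlocks_smul, fromBlocks_add, fromBlocks_multiply]
        have e1 : P.map φ * C0.map φ * Q.map φ = (P * C0 * Q).map φ := by rw [hmm, hmm]
        have e2 : P.map φ * C0.map φ * v.map φ = 0 := by rw [← hmm, ← hmm, hv, hz0]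
        have e3 : w.map φ * C0.map φ * Q.map φ = 0 := by rw [← hmm, ← hmm, hw, hz0]
        have e4 : w.map φ * C0.map φ * v.map φ = 0 := by rw [← hmm, ← hmm, horth C0 hC0, hz0]
        congr 1
        · simp only [Matrix.mul_add, Matrix.add_mul, Matrix.mul_smul, Matrix.smul_mul, e1, Matrix.mul_one, smul_add,
            Matrix.mul_zero, add_zero, smul_smul, mul_inv_cancel₀ hz, one_smul]
          rw [add_comm]
        · simp only [Matrix.mul_add, Matrix.add_mul, Matrix.mul_smul, Matrix.smul_mul, e2, Matrix.mul_one, smul_zero,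
            Matrix.mul_zero, add_zero, zero_add]
        · simp only [Matrix.mul_add, Matrix.add_mul, Matrix.mul_smul, Matrix.smul_mul, e3, Matrix.mul_one, smul_zero,
            Matrix.mul_zero, add_zero, zero_add]
        · simp only [Matrix.mul_add, Matrix.add_mul, Matrix.mul_smul, Matrix.smul_mul, e4, Matrix.mul_one, smul_zero,
            Matrix.mul_zero, add_zero, zero_add]
      rw [h3, det_mul, h1, zero_mul]
    rw [det_fromBlocks_zero₂₁] at h0
    exact (mul_eq_zero.1 h0).resolve_left hEA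
  have hr1 : 1 ≤ r := by
    by_contra hr0
    have hr0' : r = 0 := by omega
    subst hr0'
    suffices hone : HasRank 𝒞 1 from hmax hone
    have h1 : ∃ i j, C p₀ i j ≠ 0 := by
      by_contra hcon
      push Not at hcon
      exact hp₀ (by ext i j; exact hcon i j)
    obtain ⟨i, j, hij⟩ := h1
    refine ⟨C p₀, Submodule.subset_span ⟨p₀, rfl⟩, Matrix.of fun _ => Pi.single i 1,
      Matrix.of fun l _ => (Pi.single j 1 : Fin n → K) l, ?_⟩
    rw [Matrix.det_unique]
    have h2 : (Matrix.of (fun _ : Fin 1 => (Pi.single i 1 : Fin n → K)) * C p₀ *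
        Matrix.of fun (l : Fin n) (_ : Fin 1) => (Pi.single j 1 : Fin n → K) l) default default = C p₀ i j := by
      rw [Matrix.mul_apply, Finset.sum_eq_single j]
      · rw [Matrix.mul_apply, Finset.sum_eq_single i]
        · simp
        · intro l _ hl
          simp [Pi.single_eq_of_ne hl]
        · intro h
          exact absurd (Finset.mem_univ i) h
      · intro l _ hl
        simp [Pi.single_eq_of_ne hl]
      · intro h
        exact absurd (Finset.mem_univ j) h
    rw [h2]
    exact hij
  have hs1 : 1 ≤ n - r := by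
    by_contra h1
    have h2 : n - r = 0 := by omega
    have : IsEmpty (Fin (n - r)) := by rw [h2]; infer_instance
    rw [Matrix.det_isEmpty] at hs
    exact one_ne_zero hs
  obtain ⟨α, β, hα, hβ, hαβ⟩ := hV (n - r) hs1 (by omega) (w.map φ * W * v.map φ) (fun i j => by
    rw [Matrix.mul_apply]
    refine Submodule.sum_mem _ fun k _ => ?_
    rw [Matrix.mul_apply, Finset.sum_mul]
    refine Submodule.sum_mem _ fun l _ => ?_
    have : w.map φ i l * W l k * v.map φ k j = (w i l * v k j) • W l k := by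
      rw [Algebra.smul_def, map_mul]
      simp only [Matrix.map_apply, hφ]
      ring
    rw [this]
    exact V.smul_mem _ (hW _ _)) hs
  refine ⟨α ᵥ* w, v *ᵥ β, ?_, ?_, ?_, ?_⟩
  · intro h0
    apply hα
    exact Matrix.vecMul_injective_iff.2 hwi (by change α ᵥ* w = 0 ᵥ* w; rw [h0, Matrix.zero_vecMul])
  · intro h0
    apply hβ
    exact Matrix.mulVec_injective_iff.2 hvi (by change v *ᵥ β = v *ᵥ 0; rw [h0, Matrix.mulVec_zero])
  · rw [bil_mul]
    exact hαβ
  · intro p
    have h1 := horth (C p) (Submodule.subset_span ⟨p, rfl⟩)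
    rw [Matrix.mulVec_mulVec, ← Matrix.dotProduct_mulVec, Matrix.mulVec_mulVec, ← Matrix.mul_assoc, h1,
      Matrix.zero_mulVec, dotProduct_zero]


end Main

section Locus

variable {Ω : Type*} [Field Ω] [CharZero Ω] {K : Type*} [Field K] [Algebra K Ω]

/-- the determinant vanishes on the locus of a singular matrix -/
theorem det_locus {E : Submodule K Ω} {F : IntermediateField ℚ Ω} (hF : LinLoc E F) {n : ℕ}
    (M : Matrix (Fin n) (Fin n) Ω) (hM : ∀ i j, M i j ∈ E) (hdet : M.det = 0) :
    ∃ (k : ℕ) (W : Matrix (Fin n) (Fin n) Ω) (C : Fin k → Matrix (Fin n) (Fin n) K) (y : Fin k → Ω),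
      (∀ i j, W i j ∈ F) ∧ (∀ i j, W i j ∈ E) ∧ (∀ i j, M i j = W i j + ∑ p, C p i j • y p) ∧
      ∀ X : Fin k → Ω, (W + ∑ p, X p • (C p).map (algebraMap K Ω)).det = 0 := by
  classical
  let e : Fin n × Fin n ≃ Fin (n * n) := finProdFinEquiv
  obtain ⟨k, b, a, y, h1, h2, h3, h4⟩ := hF (n * n) (fun l => M (e.symm l).1 (e.symm l).2) fun l => hM _ _
  let P : MvPolynomial (Fin (n * n)) F := (Matrix.of fun i j => (MvPolynomial.X (e (i, j)) :
    MvPolynomial (Fin (n * n)) F)).det
  have hP : ∀ x : Fin (n * n) → Ω, MvPolynomial.aeval x P = (Matrix.of fun i j => x (e (i, j))).det := by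
    intro x
    simp only [P]
    rw [AlgHom.map_det]
    congr 1
    ext i j
    simp
  have h5 : MvPolynomial.aeval (fun l => M (e.symm l).1 (e.symm l).2) P = 0 := by
    rw [hP]
    rw [← hdet]
    congr 1
    ext i j
    simp
  refine ⟨k, Matrix.of fun i j => (b (e (i, j)) : Ω), fun p => Matrix.of fun i j => a p (e (i, j)), y,
    fun i j => (b _).2, fun i j => h1 _, fun i j => ?_, fun X => ?_⟩
  · have := h3 (e (i, j))
    simp only [Equiv.symm_apply_apply] at this
    exact this
  · have h6 := h4 P h5 X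
    rw [hP] at h6
    rw [← h6]
    congr 1
    ext i j
    simp only [Matrix.add_apply, Matrix.of_apply, Matrix.sum_apply, Matrix.smul_apply, Matrix.map_apply,
      smul_eq_mul]
    congr 1
    refine Finset.sum_congr rfl fun p _ => ?_
    rw [Algebra.smul_def, mul_comm]

end Locus

end Pool.Agent.Q280.LF
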