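import Pool.Agent.Q280.LF.Baker

/-!
# The support of the core with respect to a basis
-/

set_option autoImplicit false
set_option linter.unusedSectionVars false

open Matroid Set Module

namespace Pool.Agent.Q280.LF

section

variable {Ω : Type*} [Field Ω] [CharZero Ω] {K : Type*} [Field K] [Algebra K Ω]
variable (hK : ∀ a : K, IsAlgebraic ℚ (algebraMap K Ω a)) {ι : Type*} {b : ι → Ω}

/-- The core is contained in the span of those elements of the basis which are algebraic over the others. -/
theorem core_le_span (hb : LinearIndependent K b) {x : Ω} (hx : x ∈ core hK (Submodule.span K (range b))) :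
    x ∈ Submodule.span K (b '' {i | b i ∈ (Mt Ω).closure (b '' {i}ᶜ)}) := by
  classical
  have hxE : x ∈ Submodule.span K (range b) := core_le hK hx
  obtain ⟨f, hf⟩ := (Finsupp.mem_span_range_iff_exists_finsupp).mp hxE
  have key : ∀ j, f j ≠ 0 → b j ∈ (Mt Ω).closure (b '' {j}ᶜ) := by
    intro j hj
    have hrest : x - f j • b j ∈ Submodule.span K (b '' {j}ᶜ) := by
      have h1 : x - f j • b j = ∑ i ∈ f.support.erase j, f i • b i := by
        rw [← hf, Finsupp.sum, ← Finset.add_sum_erase _ _ (Finsupp.mem_support_iff.mpr hj), add_sub_cancel_left]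
      rw [h1]
      apply Submodule.sum_mem
      intro i hi
      exact Submodule.smul_mem _ _ (Submodule.subset_span ⟨i, Finset.ne_of_mem_erase hi, rfl⟩)
    have hbj : b j ∉ Submodule.span K (b '' {j}ᶜ) :=
      hb.notMem_span_image (by simp)
    have hxH : x ∉ Submodule.span K (b '' {j}ᶜ) := by
      intro h
      have h1 := sub_mem h hrest
      rw [sub_sub_cancel] at h1
      exact hbj ((Submodule.smul_mem_iff _ hj).mp h1)
    have hH : Submodule.span K (b '' {j}ᶜ) ≤ Submodule.span K (range b) :=
      Submodule.span_mono (image_subset_range _ _)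
    have hbj2 : b j ∈ Submodule.span K (b '' {j}ᶜ) ⊔ Submodule.span K {x} := by
      rw [← Submodule.smul_mem_iff _ hj]
      have h1 : f j • b j = x - (x - f j • b j) := by ring
      rw [h1]
      exact sub_mem (Submodule.mem_sup_right (Submodule.mem_span_singleton_self x))
        (Submodule.mem_sup_left hrest)
    have hsup : Submodule.span K (b '' {j}ᶜ) ⊔ Submodule.span K {x} = Submodule.span K (range b) := by
      apply le_antisymm
      · exact sup_le hH ((Submodule.span_singleton_le_iff_mem _ _).mpr hxE)
      · rw [Submodule.span_le]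
        rintro _ ⟨i, rfl⟩
        by_cases hij : i = j
        · subst hij
          exact hbj2
        · exact Submodule.mem_sup_left (Submodule.subset_span ⟨i, hij, rfl⟩)
    have h1 := (mem_FF_iff hK hxE).mp (core_sub_FF hK hx) _ hH hxH hsup
    have h2 := sup_sub hK _ _ hbj2
    refine cl_sub (union_subset ?_ ?_) h2
    · exact span_sub hK _
    · intro z hz
      obtain ⟨c, rfl⟩ := Submodule.mem_span_singleton.mp hz
      have h3 : x ∈ (Mt Ω).closure (b '' {j}ᶜ) := cl_sub (span_sub hK _) h1
      exact (clK hK _).smul_mem c h3
  rw [← hf, Finsupp.sum]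
  apply Submodule.sum_mem
  intro i hi
  exact Submodule.smul_mem _ _ (Submodule.subset_span ⟨i, key i (Finsupp.mem_support_iff.mp hi), rfl⟩)

/-- Conversely all these elements of the basis are needed. -/
theorem mem_of_core_le (hb : LinearIndependent K b) {T : Set ι}
    (hT : ∀ x ∈ core hK (Submodule.span K (range b)), x ∈ Submodule.span K (b '' T)) {i : ι}
    (hi : b i ∈ (Mt Ω).closure (b '' {i}ᶜ)) : i ∈ T := by
  by_contra hiT
  obtain ⟨X, hX1, hX2, _, hX3⟩ := exists_subset_finite_closure_of_subset_closure (M := Mt Ω)
    (finite_singleton (b i)) (singleton_subset_iff.mpr hi)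
  have hfd : FiniteDimensional K (Submodule.span K X) := FiniteDimensional.span_of_finite K hX2
  have h1 : Submodule.span K X ≤ Submodule.span K (b '' {i}ᶜ) := Submodule.span_mono hX1
  obtain ⟨v, hv, h2⟩ := exists_core_elt hK (h1.trans (Submodule.span_mono (image_subset_range _ _)))
    (Submodule.subset_span (mem_range_self i)) (cl_mono Submodule.subset_span (hX3 rfl))
  have h3 : Submodule.span K (b '' T) ≤ Submodule.span K (b '' {i}ᶜ) := by
    apply Submodule.span_mono
    apply image_mono
    intro j hj hji
    rw [mem_singleton_iff] at hji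
    exact hiT (hji ▸ hj)
  have h4 := sub_mem (h3 (hT _ h2)) (h1 hv)
  rw [add_sub_cancel_right] at h4
  exact hb.notMem_span_image (s := {i}ᶜ) (by simp) h4

end

end Pool.Agent.Q280.LF
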